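import Pool.Agent.H65.LQ.RnCore

/-!
# The reverse Newton inequality for `p + q = 38` (kernel computation)
-/

set_option autoImplicit false

namespace LQ

/-- coefficients of `(s + X) * L` -/
def stepL (s : ℕ) (L : List ℕ) : List ℕ :=
  List.zipWith (· + ·) ((L.map (s * ·)) ++ [0]) (0 :: L)

/-- coefficients of `(1 + X) ... (q + X) * L` -/
def runL : ℕ → List ℕ → List ℕ
  | 0, L => L
  | q + 1, L => stepL (q + 1) (runL q L)

/-- `30 * Th l` -/
def ThN (l : ℕ) : ℕ := if l = 0 then 30 else if l ≤ 15 then 39 + 15 * l else if l ≤ 23 then 264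
    else 30 + 10 * l

/-- `a` = current coefficient, `b` = next one, `L` = the rest -/
def chkL (q : ℕ) : ℕ → ℕ → ℕ → List ℕ → Bool
  | l, a, b, c :: L => decide ((q + 1) * ThN (l + 1) * b ^ 2 ≤
      (q + 1) * ThN (l + 1) * (a * c) + 30 * (q + 1) * b ^ 2 + 30 * b * a) && chkL q (l + 1) b c L
  | l, a, b, [] => decide ((q + 1) * ThN (l + 1) * b ^ 2 ≤ 30 * (q + 1) * b ^ 2 + 30 * b * a)

def chk2 (q : ℕ) : List ℕ → Bool
  | a :: b :: L => chkL q 0 a b L
  | _ => false

theorem all_chk : (List.range 20).all (fun p => chk2 (38 - p) (runL p (runL (38 - p) [1]))) =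
    true := by decide +kernel

theorem ThN_eq (l : ℕ) : (ThN l : ℝ) = 30 * Th l := by
  unfold ThN Th
  split_ifs <;> push_cast <;> ring

theorem stepL_zero (s : ℕ) (L : List ℕ) : (stepL s L).getD 0 0 = s * L.getD 0 0 := by
  cases L <;> simp [stepL]

theorem stepL_length (s : ℕ) (L : List ℕ) : (stepL s L).length = L.length + 1 := by
  simp [stepL]

theorem map_append_getD (s : ℕ) (L : List ℕ) (l : ℕ) :
    ((L.map (s * ·)) ++ [0]).getD l 0 = s * L.getD l 0 := by
  induction L generalizing l with
  | nil => cases l <;> simp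
  | cons a L ih =>
    cases l with
    | zero => simp
    | succ l => simpa using ih l

theorem zipWith_getD (L M : List ℕ) (h : L.length = M.length) (l : ℕ) :
    (List.zipWith (· + ·) L M).getD l 0 = L.getD l 0 + M.getD l 0 := by
  induction L generalizing M l with
  | nil =>
    have : M = [] := by
      cases M with
      | nil => rfl
      | cons a M => simp at h
    rw [this]
    simp
  | cons a L ih =>
    cases M with
    | nil => simp at h
    | cons b M =>
      cases l with
      | zero => simp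
      | succ l => simpa using ih M (by simpa using h) l

theorem stepL_succ (s : ℕ) (L : List ℕ) (l : ℕ) :
    (stepL s L).getD (l + 1) 0 = s * L.getD (l + 1) 0 + L.getD l 0 := by
  unfold stepL
  rw [zipWith_getD _ _ (by simp), map_append_getD]
  simp

theorem run_q (q l : ℕ) : ((runL q [1]).getD l 0 : ℝ) = (q.factorial : ℝ) * e 0 q l := by
  induction q generalizing l with
  | zero =>
    rw [e_zero_zero]
    cases l <;> simp [runL]
  | succ q ih =>
    cases l with
    | zero =>
      rw [e_zero]
      have := ih 0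
      rw [e_zero] at this
      show (((stepL (q + 1) (runL q [1])).getD 0 0 : ℕ) : ℝ) = _
      rw [stepL_zero, Nat.factorial_succ]
      push_cast
      rw [this]
      ring
    | succ l =>
      show (((stepL (q + 1) (runL q [1])).getD (l + 1) 0 : ℕ) : ℝ) = _
      rw [stepL_succ, e_right, Nat.factorial_succ]
      push_cast
      rw [ih, ih]
      field_simp

theorem run_pq (p q l : ℕ) : ((runL p (runL q [1])).getD l 0 : ℝ) =
    (p.factorial : ℝ) * (q.factorial : ℝ) * e p q l := by
  induction p generalizing l with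
  | zero =>
    show (((runL q [1]).getD l 0 : ℕ) : ℝ) = _
    rw [run_q]
    simp
  | succ p ih =>
    cases l with
    | zero =>
      rw [e_zero]
      have := ih 0
      rw [e_zero] at this
      show (((stepL (p + 1) (runL p (runL q [1]))).getD 0 0 : ℕ) : ℝ) = _
      rw [stepL_zero, Nat.factorial_succ]
      push_cast
      rw [this]
      ring
    | succ l =>
      show (((stepL (p + 1) (runL p (runL q [1]))).getD (l + 1) 0 : ℕ) : ℝ) = _
      rw [stepL_succ, e_left, Nat.factorial_succ]
      push_cast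
      rw [ih, ih]
      field_simp

theorem chkL_spec (q : ℕ) (L : List ℕ) : ∀ (l a b : ℕ), chkL q l a b L = true → ∀ i : ℕ,
    (q + 1) * ThN (l + i + 1) * (a :: b :: L).getD (i + 1) 0 ^ 2 ≤
      (q + 1) * ThN (l + i + 1) * ((a :: b :: L).getD i 0 * (a :: b :: L).getD (i + 2) 0) +
      30 * (q + 1) * (a :: b :: L).getD (i + 1) 0 ^ 2 +
      30 * (a :: b :: L).getD (i + 1) 0 * (a :: b :: L).getD i 0 := by
  induction L with
  | nil =>
    intro l a b h i
    cases i with
    | zero =>
      simp only [chkL, decide_eq_true_eq] at h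
      simpa using h
    | succ i => simp
  | cons c L ih =>
    intro l a b h i
    simp only [chkL, Bool.and_eq_true, decide_eq_true_eq] at h
    cases i with
    | zero => simpa using h.1
    | succ i =>
      have := ih (l + 1) b c h.2 i
      have e1 : l + 1 + i + 1 = l + (i + 1) + 1 := by ring
      rw [e1] at this
      simpa using this

theorem chk2_spec (q : ℕ) (L : List ℕ) (h : chk2 q L = true) (i : ℕ) :
    (q + 1) * ThN (i + 1) * L.getD (i + 1) 0 ^ 2 ≤
      (q + 1) * ThN (i + 1) * (L.getD i 0 * L.getD (i + 2) 0) +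
      30 * (q + 1) * L.getD (i + 1) 0 ^ 2 + 30 * L.getD (i + 1) 0 * L.getD i 0 := by
  match L, h with
  | a :: b :: L, h =>
    have := chkL_spec q L 0 a b h i
    rw [zero_add] at this
    exact this

/-- the reverse Newton inequality for `p + q = 38` -/
theorem rn_base (p q l : ℕ) (hpq : p ≤ q) (h : p + q = 38) :
    Th (l + 1) * (e p q (l + 1) ^ 2 - e p q l * e p q (l + 2)) ≤
      e p q (l + 1) ^ 2 + 1 / ((q : ℝ) + 1) * e p q (l + 1) * e p q l := by
  have hp : p < 20 := by omega
  have hq : 38 - p = q := by omega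
  have h1 := all_chk
  rw [List.all_eq_true] at h1
  have h2 := h1 p (List.mem_range.mpr hp)
  rw [hq] at h2
  have h3 := chk2_spec q _ h2 l
  have h4 : ((q : ℝ) + 1) * (ThN (l + 1) : ℝ) * ((runL p (runL q [1])).getD (l + 1) 0 : ℝ) ^ 2 ≤
      ((q : ℝ) + 1) * (ThN (l + 1) : ℝ) * (((runL p (runL q [1])).getD l 0 : ℝ) *
        ((runL p (runL q [1])).getD (l + 2) 0 : ℝ)) +
      30 * ((q : ℝ) + 1) * ((runL p (runL q [1])).getD (l + 1) 0 : ℝ) ^ 2 +
      30 * ((runL p (runL q [1])).getD (l + 1) 0 : ℝ) * ((runL p (runL q [1])).getD l 0 : ℝ) := by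
    exact_mod_cast h3
  rw [ThN_eq, run_pq, run_pq, run_pq] at h4
  have hf : (0 : ℝ) < (p.factorial : ℝ) * (q.factorial : ℝ) := by positivity
  set f := (p.factorial : ℝ) * (q.factorial : ℝ) with hfd
  set T := Th (l + 1)
  set x := e p q l
  set y := e p q (l + 1)
  set z := e p q (l + 2)
  have hq1 : (0 : ℝ) < (q : ℝ) + 1 := by positivity
  have h5 : (30 * f ^ 2 * ((q : ℝ) + 1)) * (T * (y ^ 2 - x * z)) ≤
      (30 * f ^ 2 * ((q : ℝ) + 1)) * (y ^ 2 + 1 / ((q : ℝ) + 1) * y * x) := by
    have e1 : (30 * f ^ 2 * ((q : ℝ) + 1)) * (y ^ 2 + 1 / ((q : ℝ) + 1) * y * x) =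
        30 * ((q : ℝ) + 1) * (f * y) ^ 2 + 30 * (f * y) * (f * x) := by
      field_simp
    rw [e1]
    nlinarith
  exact le_of_mul_le_mul_left h5 (by positivity)

end LQ
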