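import Pool.Agent.H65.LQ.Pol

/-!
# Log-concavity of `A_k` for `n ≥ 41`
-/

set_option autoImplicit false

namespace LQ

open Finset

theorem P_ratio (a b t : ℕ) (h : t ≤ a + b) :
    P (a + b + 2) (a + 1) (t + 3) = F a b t * P (a + b + 2) (a + 1) (t + 2) := by
  have h1 := P_mid a b (t + 1)
  have h2 := P_mid a b t
  rw [show t + 1 + 2 = t + 3 from rfl] at h1
  rw [h1, h2]
  unfold F
  have := (e_pos a b t h).ne'
  field_simp

theorem P0_ratio (b t : ℕ) (h : t ≤ b) :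
    P (b + 1) 0 (t + 2) = F 0 b t * P (b + 1) 0 (t + 1) := by
  have h1 := P_zero b (t + 1)
  have h2 := P_zero b t
  rw [show t + 1 + 1 = t + 2 from rfl] at h1
  rw [h1, h2]
  unfold F
  have := (e_pos 0 b t (by omega)).ne'
  field_simp

theorem P_nonneg (n i l : ℕ) (h : i < n) : 0 ≤ P n i l := by
  cases i with
  | zero =>
    obtain ⟨b, rfl⟩ : ∃ b, n = b + 1 := ⟨n - 1, by omega⟩
    cases l with
    | zero => rw [P_zero_low]
    | succ l =>
      rw [P_zero]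
      have := e_nonneg 0 b l
      positivity
  | succ a =>
    obtain ⟨b, rfl⟩ : ∃ b, n = a + b + 2 := ⟨n - a - 2, by omega⟩
    rcases le_or_gt 2 l with h1 | h1
    · obtain ⟨l', rfl⟩ : ∃ l', l = l' + 2 := ⟨l - 2, by omega⟩
      rw [P_mid]
      have := e_nonneg a b l'
      positivity
    · rw [P_mid_low a b l h1]

theorem P_pos (a b t : ℕ) (h : t ≤ a + b) : 0 < P (a + b + 2) (a + 1) (t + 2) := by
  rw [P_mid]
  have := e_pos a b t h
  positivity

theorem P0_pos (b t : ℕ) (h : t ≤ b) : 0 < P (b + 1) 0 (t + 1) := by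
  rw [P_zero]
  have := e_pos 0 b t (by omega)
  positivity

theorem A_nonneg (n l : ℕ) : ∀ k : ℕ, k < n → 0 ≤ A n k l
  | 0, h => P_nonneg n 0 l h
  | 1, h => P_nonneg n 1 l h
  | k + 2, h => by
    have h1 := A_nonneg n l k (by omega)
    have h2 := P_nonneg n (k + 2) l h
    show 0 ≤ A n k l + P n (k + 2) l
    linarith

theorem U_bound (n j : ℕ) : ∀ k : ℕ, 2 * k ≤ n → k < n → ((n : ℝ) - 2 * (k : ℝ)) * A n k j ≤
    ∑ i ∈ range (k + 1), ((n : ℝ) - 2 * (i : ℝ)) * P n i j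
  | 0, _, _ => by simp [A]
  | 1, h, h' => by
    rw [sum_range_succ, sum_range_one]
    have h1 := P_nonneg n 0 j (by omega)
    have h2 : (0 : ℝ) ≤ (n : ℝ) - 2 * ((0 : ℕ) : ℝ) := by simp
    have h3 := mul_nonneg h2 h1
    show ((n : ℝ) - 2 * ((1 : ℕ) : ℝ)) * P n 1 j ≤ _
    linarith
  | k + 2, h, h' => by
    have ih := U_bound n j k (by omega) (by omega)
    rw [sum_range_succ, sum_range_succ]
    have h1 := P_nonneg n (k + 1) j (by omega)
    have h2 := P_nonneg n (k + 2) j h'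
    have h3 := A_nonneg n j k (by omega)
    have hn : (2 : ℝ) * ((k : ℝ) + 2) ≤ n := by exact_mod_cast h
    have h4 : 0 ≤ ((n : ℝ) - 2 * ((k + 1 : ℕ) : ℝ)) * P n (k + 1) j := by
      apply mul_nonneg _ h1
      push_cast
      linarith
    show ((n : ℝ) - 2 * ((k + 2 : ℕ) : ℝ)) * (A n k j + P n (k + 2) j) ≤ _
    push_cast at *
    nlinarith

/-- one step of the chain -/
theorem chain_step (a d t : ℕ) (had : a + 1 ≤ d) (hM : 37 ≤ a + d) (ht : t ≤ a + d) (s : ℝ)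
    (hs : 0 < s) (hs2 : s ^ 2 = (t : ℝ) + 2) (B B' : ℝ)
    (hB : A (a + d + 4) (a + 1) (t + 2) = B + P (a + d + 4) (a + 1) (t + 2))
    (hB' : A (a + d + 4) (a + 1) (t + 3) = B' + P (a + d + 4) (a + 1) (t + 3))
    (ih : s * F a (d + 2) (t + 1) * B ≤ (s + 1) * B') :
    s * F (a + 2) d (t + 1) * A (a + d + 4) (a + 1) (t + 2) ≤
      (s + 1) * A (a + d + 4) (a + 1) (t + 3) := by
  have hk := key a d t had hM ht s hs hs2
  have hr : P (a + d + 4) (a + 1) (t + 3) = F a (d + 2) t * P (a + d + 4) (a + 1) (t + 2) := by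
    have := P_ratio a (d + 2) t (by omega)
    exact this
  have hU := U_bound (a + d + 4) (t + 2) (a + 1) (by omega) (by omega)
  rw [telescope_coeff (a + d + 4) (a + 1) (t + 2) (by omega)] at hU
  rw [show t + 2 + 1 = t + 3 from rfl, hr] at hU
  have hp := P_nonneg (a + d + 4) (a + 1) (t + 2) (by omega)
  have hA0 := A_nonneg (a + d + 4) (t + 2) (a + 1) (by omega)
  have hsw1 := F_swap a (d + 1) (t + 1) (by omega)
  have hsw2 := F_swap (a + 1) d (t + 1) (by omega)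
  have hsw : F a (d + 2) (t + 1) ≤ F (a + 2) d (t + 1) := hsw1.trans hsw2
  rw [hB'] at *
  rw [hr] at *
  set p := P (a + d + 4) (a + 1) (t + 2)
  set Ah := A (a + d + 4) (a + 1) (t + 2)
  set R := F a (d + 2) t
  set R' := F a (d + 2) (t + 1)
  set R2 := F (a + 2) d (t + 1)
  have haD : (a : ℝ) + 1 ≤ d := by exact_mod_cast had
  push_cast at hU
  have hc : 0 < (d : ℝ) + 2 - a := by linarith
  -- `(d+2-a) * s (R2 - R') Ah ≤ (d+2-a) ((s+1) R - s R') p`
  have h1 : ((d : ℝ) + 2 - a) * Ah ≤ ((d : ℝ) + 3) * (1 + ((a : ℝ) + 1) * R) * p := by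
    nlinarith
  have h2 : s * (R2 - R') * (((d : ℝ) + 2 - a) * Ah) ≤
      s * (R2 - R') * (((d : ℝ) + 3) * (1 + ((a : ℝ) + 1) * R) * p) :=
    mul_le_mul_of_nonneg_left h1 (mul_nonneg hs.le (by linarith))
  have h3 : (s * (((d : ℝ) + 3) * (1 + ((a : ℝ) + 1) * R)) * (R2 - R')) * p ≤
      (((d : ℝ) + 2 - a) * ((s + 1) * R - s * R')) * p :=
    mul_le_mul_of_nonneg_right hk hp
  have h4 : ((d : ℝ) + 2 - a) * (s * (R2 - R') * Ah) ≤
      ((d : ℝ) + 2 - a) * (((s + 1) * R - s * R') * p) := by nlinarith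
  have h5 := le_of_mul_le_mul_left h4 hc
  have h6 : s * R' * Ah = s * R' * B + s * R' * p := by rw [hB]; ring
  nlinarith

/-- the comparison of `A_k` with `P_{k+2}`, lower bound -/
theorem chainS (n t : ℕ) (hn : 41 ≤ n) (ht : t + 4 ≤ n) (s : ℝ) (hs : 0 < s)
    (hs2 : s ^ 2 = (t : ℝ) + 2) : ∀ k : ℕ, 2 * k + 5 ≤ n →
    s * F (k + 1) (n - k - 3) (t + 1) * A n k (t + 2) ≤ (s + 1) * A n k (t + 3)
  | 0, hk => by
    obtain ⟨m, rfl⟩ : ∃ m, n = m + 3 := ⟨n - 3, by omega⟩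
    have h1 := key0 m t (by omega) (by omega) s hs hs2
    have h2 : P (m + 2 + 1) 0 (t + 1 + 2) = F 0 (m + 2) (t + 1) * P (m + 2 + 1) 0 (t + 1 + 1) :=
      P0_ratio (m + 2) (t + 1) (by omega)
    have h3 := P_nonneg (m + 3) 0 (t + 2) (by omega)
    have e1 : m + 3 - 0 - 3 = m := by omega
    rw [e1]
    show s * F 1 m (t + 1) * P (m + 3) 0 (t + 2) ≤ (s + 1) * P (m + 3) 0 (t + 3)
    have h2' : P (m + 3) 0 (t + 3) = F 0 (m + 2) (t + 1) * P (m + 3) 0 (t + 2) := h2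
    rw [h2']
    have := mul_le_mul_of_nonneg_right h1 h3
    linarith
  | 1, hk => by
    obtain ⟨d, rfl⟩ : ∃ d, n = 0 + d + 4 := ⟨n - 4, by omega⟩
    have h1 := chain_step 0 d t (by omega) (by omega) (by omega) s hs hs2 0 0
      (by show P (0 + d + 4) 1 (t + 2) = _; ring) (by show P (0 + d + 4) 1 (t + 3) = _; ring)
      (by simp)
    have e1 : 0 + d + 4 - 1 - 3 = d := by omega
    rw [e1]
    exact h1
  | k + 2, hk => by
    have ih := chainS n t hn ht s hs hs2 k (by omega)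
    obtain ⟨d, rfl⟩ : ∃ d, n = (k + 1) + d + 4 := ⟨n - (k + 5), by omega⟩
    have e0 : (k + 1) + d + 4 - k - 3 = d + 2 := by omega
    rw [e0] at ih
    have h1 := chain_step (k + 1) d t (by omega) (by omega) (by omega) s hs hs2
      (A ((k + 1) + d + 4) k (t + 2)) (A ((k + 1) + d + 4) k (t + 3)) rfl rfl ih
    have e1 : (k + 1) + d + 4 - (k + 2) - 3 = d := by omega
    rw [e1]
    exact h1

/-- the comparison of `A_k` with `P_{k+2}`, upper bound -/
theorem chainM (n t : ℕ) (hn : 41 ≤ n) (ht : t + 4 ≤ n) : ∀ k : ℕ, 2 * k + 5 ≤ n →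
    A n k (t + 3) ≤ F (k + 1) (n - k - 3) t * A n k (t + 2)
  | 0, hk => by
    obtain ⟨m, rfl⟩ : ∃ m, n = m + 3 := ⟨n - 3, by omega⟩
    have h2 : P (m + 2 + 1) 0 (t + 1 + 2) = F 0 (m + 2) (t + 1) * P (m + 2 + 1) 0 (t + 1 + 1) :=
      P0_ratio (m + 2) (t + 1) (by omega)
    have h2' : P (m + 3) 0 (t + 3) = F 0 (m + 2) (t + 1) * P (m + 3) 0 (t + 2) := h2
    have h3 := P_nonneg (m + 3) 0 (t + 2) (by omega)
    have e1 : m + 3 - 0 - 3 = m := by omega
    rw [e1]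
    show P (m + 3) 0 (t + 3) ≤ F 1 m t * P (m + 3) 0 (t + 2)
    rw [h2']
    apply mul_le_mul_of_nonneg_right _ h3
    -- `F 0 (m+2) (t+1) ≤ F 0 (m+1) t ≤ F 1 m t`
    have h4 : F 0 (m + 2) (t + 1) ≤ F 0 (m + 1) t := by
      have h5 := F_right 0 (m + 1) t (by omega)
      have h6 := F_anti' 0 (m + 1) t
      have h7 := F_pos 0 (m + 1) t (by omega)
      have h5' : F 0 (m + 2) (t + 1) = F 0 (m + 1) t * (F 0 (m + 1) (t + 1) +
        1 / (((m + 1 : ℕ) : ℝ) + 1)) / (F 0 (m + 1) t + 1 / (((m + 1 : ℕ) : ℝ) + 1)) := h5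
      rw [h5']
      have hx : (0 : ℝ) < 1 / (((m + 1 : ℕ) : ℝ) + 1) := by positivity
      rw [div_le_iff₀ (by positivity)]
      apply mul_le_mul_of_nonneg_left _ h7.le
      linarith
    exact h4.trans (F_swap 0 m t (by omega))
  | 1, hk => by
    obtain ⟨d, rfl⟩ : ∃ d, n = 0 + (d + 2) + 2 := ⟨n - 4, by omega⟩
    have h1 := P_ratio 0 (d + 2) t (by omega)
    have h3 := P_nonneg (0 + (d + 2) + 2) 1 (t + 2) (by omega)
    have e1 : 0 + (d + 2) + 2 - 1 - 3 = d := by omega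
    rw [e1]
    show P (0 + (d + 2) + 2) 1 (t + 3) ≤ F 2 d t * P (0 + (d + 2) + 2) 1 (t + 2)
    have h1' : P (0 + (d + 2) + 2) 1 (t + 3) = F 0 (d + 2) t * P (0 + (d + 2) + 2) 1 (t + 2) := h1
    rw [h1']
    apply mul_le_mul_of_nonneg_right _ h3
    exact (F_swap 0 (d + 1) t (by omega)).trans (F_swap 1 d t (by omega))
  | k + 2, hk => by
    have ih := chainM n t hn ht k (by omega)
    obtain ⟨d, rfl⟩ : ∃ d, n = (k + 1) + (d + 2) + 2 := ⟨n - (k + 5), by omega⟩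
    have e0 : (k + 1) + (d + 2) + 2 - k - 3 = d + 2 := by omega
    rw [e0] at ih
    have h1 := P_ratio (k + 1) (d + 2) t (by omega)
    have e1 : (k + 1) + (d + 2) + 2 - (k + 2) - 3 = d := by omega
    rw [e1]
    have hA := A_nonneg ((k + 1) + (d + 2) + 2) (t + 2) k (by omega)
    have hP := P_nonneg ((k + 1) + (d + 2) + 2) (k + 2) (t + 2) (by omega)
    have hsw : F (k + 1) (d + 2) t ≤ F (k + 3) d t :=
      (F_swap (k + 1) (d + 1) t (by omega)).trans (F_swap (k + 2) d t (by omega))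
    show A ((k + 1) + (d + 2) + 2) k (t + 3) + P ((k + 1) + (d + 2) + 2) (k + 2) (t + 3) ≤
      F (k + 3) d t * (A ((k + 1) + (d + 2) + 2) k (t + 2) +
        P ((k + 1) + (d + 2) + 2) (k + 2) (t + 2))
    have h1' : P ((k + 1) + (d + 2) + 2) (k + 2) (t + 3) =
      F (k + 1) (d + 2) t * P ((k + 1) + (d + 2) + 2) (k + 2) (t + 2) := h1
    rw [h1']
    have h5 := mul_le_mul_of_nonneg_right hsw hA
    have h6 := mul_le_mul_of_nonneg_right hsw hP
    nlinarith

/-- the cross inequality -/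
theorem cross (a b c p q r s T : ℝ) (ha : 0 < a) (hb : 0 ≤ b) (hc : 0 ≤ c) (hp : 0 < p)
    (hq : 0 < q) (hr : 0 ≤ r) (hs : 0 < s) (hs2 : s ^ 2 = T + 2) (_hT : 0 ≤ T)
    (hA : a * c ≤ b ^ 2) (hP : (T + 2) * (p * r) ≤ (T + 1) * q ^ 2)
    (hM : b * p ≤ q * a) (hS : s * (r * a) ≤ (s + 1) * (b * q)) :
    (a + p) * (c + r) ≤ (b + q) ^ 2 := by
  have hpr : p * r ≤ q ^ 2 := by nlinarith [mul_nonneg hp.le hr, sq_nonneg q]
  suffices h : a * r + p * c ≤ 2 * (b * q) by nlinarith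
  rcases eq_or_lt_of_le hb with h0 | hbp
  · rw [← h0] at hA hS
    have hc0 : c = 0 := by
      have : a * c ≤ 0 := by simpa using hA
      by_contra h
      have : 0 < c := lt_of_le_of_ne hc (Ne.symm h)
      nlinarith [mul_pos ha this]
    have hr0 : r = 0 := by
      by_contra h
      have : 0 < r := lt_of_le_of_ne hr (Ne.symm h)
      nlinarith [mul_pos hs (mul_pos this ha)]
    rw [hc0, hr0, ← h0]
    simp
  -- `y = a r / (b q)`, `z = b p / (a q)`
  have hbq : 0 < b * q := mul_pos hbp hq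
  have haq : 0 < a * q := mul_pos ha hq
  set y := a * r / (b * q) with hy
  set z := b * p / (a * q) with hz
  have ey : a * r = y * (b * q) := by rw [hy]; field_simp
  have ez : b * p = z * (a * q) := by rw [hz]; field_simp
  have hy0 : 0 ≤ y := by positivity
  have hz0 : 0 ≤ z := by positivity
  have hz1 : z ≤ 1 := by
    rw [hz, div_le_one haq]
    linarith
  have hy1 : s * y ≤ s + 1 := by
    have : s * y * (b * q) ≤ (s + 1) * (b * q) := by
      rw [mul_assoc, ← ey]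
      linarith
    exact le_of_mul_le_mul_right this hbq
  have hyz : s ^ 2 * (y * z) ≤ s ^ 2 - 1 := by
    have e1 : y * z = p * r / q ^ 2 := by
      rw [hy, hz]
      field_simp
    rw [e1, ← mul_div_assoc, div_le_iff₀ (by positivity), hs2]
    linarith
  -- `p c ≤ z b q`
  have hpc : p * c ≤ z * (b * q) := by
    have h1 : a * (p * c) ≤ a * (z * (b * q)) := by
      have h2 : p * (a * c) ≤ p * b ^ 2 := mul_le_mul_of_nonneg_left hA hp.le
      have h3 : p * b ^ 2 = b * (z * (a * q)) := by rw [← ez]; ring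
      nlinarith
    exact le_of_mul_le_mul_left h1 ha
  have hsum : y + z ≤ 2 := by
    rcases le_or_gt y 1 with h | h
    · linarith
    · -- `s² (y-1)² ≤ 1`
      have h1 : s * (y - 1) ≤ 1 := by linarith
      have h1' : 0 ≤ s * (y - 1) := mul_nonneg hs.le (by linarith)
      have h2 : s ^ 2 * (y - 1) ^ 2 ≤ 1 := by nlinarith
      have h3 : s ^ 2 * (y * (y + z)) ≤ s ^ 2 * (y * 2) := by nlinarith
      have h4 : y * (y + z) ≤ y * 2 := le_of_mul_le_mul_left h3 (by positivity)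
      exact le_of_mul_le_mul_left h4 (by linarith)
  calc a * r + p * c ≤ y * (b * q) + z * (b * q) := by linarith
    _ = (y + z) * (b * q) := by ring
    _ ≤ 2 * (b * q) := mul_le_mul_of_nonneg_right hsum hbq.le

theorem P_newton (a b t : ℕ) : ((t : ℝ) + 2) *
    (P (a + b + 2) (a + 1) (t + 2) * P (a + b + 2) (a + 1) (t + 4)) ≤
    ((t : ℝ) + 1) * P (a + b + 2) (a + 1) (t + 3) ^ 2 := by
  have h1 := P_mid a b (t + 1)
  have h2 := P_mid a b t
  have h3 := P_mid a b (t + 2)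
  rw [show t + 1 + 2 = t + 3 from rfl] at h1
  rw [show t + 2 + 2 = t + 4 from rfl] at h3
  rw [h1, h2, h3]
  have hN := newton a b t
  have hc : 0 < ((a : ℝ) + 1) * ((b : ℝ) + 1) := by positivity
  set c := ((a : ℝ) + 1) * ((b : ℝ) + 1)
  have e1 : ((t : ℝ) + 2) * (e a b t / c * (e a b (t + 2) / c)) =
      (((t : ℝ) + 2) * (e a b t * e a b (t + 2))) / c ^ 2 := by field_simp
  have e2 : ((t : ℝ) + 1) * (e a b (t + 1) / c) ^ 2 =
      (((t : ℝ) + 1) * e a b (t + 1) ^ 2) / c ^ 2 := by field_simp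
  rw [e1, e2]
  exact div_le_div_of_nonneg_right hN (by positivity)

theorem P0_newton (b t : ℕ) : P (b + 1) 0 (t + 1) * P (b + 1) 0 (t + 3) ≤
    P (b + 1) 0 (t + 2) ^ 2 := by
  have h1 := P_zero b (t + 1)
  have h2 := P_zero b t
  have h3 := P_zero b (t + 2)
  rw [show t + 1 + 1 = t + 2 from rfl] at h1
  rw [show t + 2 + 1 = t + 3 from rfl] at h3
  rw [h1, h2, h3]
  have hN := newton 0 b t
  have h0 := e_nonneg 0 b t
  have h4 := e_nonneg 0 b (t + 2)
  have h5 : e 0 b t * e 0 b (t + 2) ≤ e 0 b (t + 1) ^ 2 := by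
    have : (0 : ℝ) ≤ t := by positivity
    nlinarith [mul_nonneg h0 h4]
  have hc : 0 < ((b : ℝ) + 1) := by positivity
  set c := ((b : ℝ) + 1)
  have e1 : e 0 b t / c * (e 0 b (t + 2) / c) = (e 0 b t * e 0 b (t + 2)) / c ^ 2 := by
    field_simp
  have e2 : (e 0 b (t + 1) / c) ^ 2 = (e 0 b (t + 1) ^ 2) / c ^ 2 := by field_simp
  rw [e1, e2]
  exact div_le_div_of_nonneg_right h5 (by positivity)

/-- log-concavity at `l = t + 3` -/
theorem logconc (n t : ℕ) (hn : 41 ≤ n) (ht : t + 4 ≤ n) : ∀ k : ℕ, 2 * k + 3 ≤ n →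
    A n k (t + 2) * A n k (t + 4) ≤ A n k (t + 3) ^ 2
  | 0, hk => by
    obtain ⟨m, rfl⟩ : ∃ m, n = m + 1 := ⟨n - 1, by omega⟩
    exact P0_newton m (t + 1)
  | 1, hk => by
    obtain ⟨m, rfl⟩ : ∃ m, n = 0 + m + 2 := ⟨n - 2, by omega⟩
    have h := P_newton 0 m t
    show P (0 + m + 2) 1 (t + 2) * P (0 + m + 2) 1 (t + 4) ≤ P (0 + m + 2) 1 (t + 3) ^ 2
    have h' : ((t : ℝ) + 2) * (P (0 + m + 2) 1 (t + 2) * P (0 + m + 2) 1 (t + 4)) ≤
      ((t : ℝ) + 1) * P (0 + m + 2) 1 (t + 3) ^ 2 := h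
    have h1 := P_nonneg (0 + m + 2) 1 (t + 2) (by omega)
    have h2 := P_nonneg (0 + m + 2) 1 (t + 4) (by omega)
    have : (0 : ℝ) ≤ t := by positivity
    nlinarith [mul_nonneg h1 h2]
  | k + 2, hk => by
    have ih := logconc n t hn ht k (by omega)
    have hsq : (Real.sqrt ((t : ℝ) + 2)) ^ 2 = (t : ℝ) + 2 := Real.sq_sqrt (by positivity)
    have hspos : 0 < Real.sqrt ((t : ℝ) + 2) := Real.sqrt_pos.mpr (by positivity)
    have hS := chainS n t hn ht _ hspos hsq k (by omega)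
    have hM := chainM n t hn ht k (by omega)
    obtain ⟨b, rfl⟩ : ∃ b, n = (k + 1) + b + 2 := ⟨n - (k + 3), by omega⟩
    have e0 : (k + 1) + b + 2 - k - 3 = b := by omega
    rw [e0] at hS hM
    have r1 := P_ratio (k + 1) b t (by omega)
    have r2 := P_ratio (k + 1) b (t + 1) (by omega)
    rw [show t + 1 + 3 = t + 4 from rfl, show t + 1 + 2 = t + 3 from rfl] at r2
    have hN := P_newton (k + 1) b t
    have p1 := P_pos (k + 1) b t (by omega)
    have p2 := P_pos (k + 1) b (t + 1) (by omega)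
    rw [show t + 1 + 2 = t + 3 from rfl] at p2
    have p3 := P_nonneg ((k + 1) + b + 2) (k + 1 + 1) (t + 4) (by omega)
    have a2 := A_nonneg ((k + 1) + b + 2) (t + 3) k (by omega)
    have a3 := A_nonneg ((k + 1) + b + 2) (t + 4) k (by omega)
    have a1 : 0 < A ((k + 1) + b + 2) k (t + 2) := by
      clear ih hS hM r1 r2 hN p1 p2 p3 a2 a3
      have hgen : ∀ n k : ℕ, k < n → t + 2 ≤ n → 2 ≤ n → 0 < A n k (t + 2)
        | n, 0, _, h2, h3 => by
          obtain ⟨m, rfl⟩ : ∃ m, n = m + 1 := ⟨n - 1, by omega⟩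
          exact P0_pos m (t + 1) (by omega)
        | n, 1, _, h2, h3 => by
          obtain ⟨m, rfl⟩ : ∃ m, n = 0 + m + 2 := ⟨n - 2, by omega⟩
          exact P_pos 0 m t (by omega)
        | n, k + 2, h1, h2, h3 => by
          obtain ⟨m, rfl⟩ : ∃ m, n = (k + 1) + m + 2 := ⟨n - (k + 3), by omega⟩
          have h4 := P_pos (k + 1) m t (by omega)
          have h5 := A_nonneg ((k + 1) + m + 2) (t + 2) k (by omega)
          show 0 < A ((k + 1) + m + 2) k (t + 2) + P ((k + 1) + m + 2) (k + 2) (t + 2)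
          have h4' : 0 < P ((k + 1) + m + 2) (k + 2) (t + 2) := h4
          linarith
      exact hgen _ k (by omega) (by omega) (by omega)
    show (A ((k + 1) + b + 2) k (t + 2) + P ((k + 1) + b + 2) (k + 1 + 1) (t + 2)) *
      (A ((k + 1) + b + 2) k (t + 4) + P ((k + 1) + b + 2) (k + 1 + 1) (t + 4)) ≤
      (A ((k + 1) + b + 2) k (t + 3) + P ((k + 1) + b + 2) (k + 1 + 1) (t + 3)) ^ 2
    refine cross _ _ _ _ _ _ (Real.sqrt ((t : ℝ) + 2)) (t : ℝ) a1 a2 a3 p1 p2 p3 hspos hsq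
      (by positivity) ih hN ?_ ?_
    · rw [r1]
      have := mul_le_mul_of_nonneg_right hM p1.le
      nlinarith
    · rw [r2]
      have := mul_le_mul_of_nonneg_right hS p2.le
      nlinarith

end LQ
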