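import Mathlib

/-!
# Elementary symmetric polynomials of `{1, 1/2, ..., 1/p} ∪ {1, 1/2, ..., 1/q}`

`e p q l` is the `l`-th elementary symmetric polynomial of the multiset
`{1, ..., 1/p, 1, ..., 1/q}`, `F p q l = e (l+1) / e l`.
-/

set_option autoImplicit false

namespace LQ

open Polynomial Finset

/-- `∏_{s ≤ p} (1 + X/s) ∏_{s ≤ q} (1 + X/s)` -/
noncomputable def E (p q : ℕ) : ℝ[X] :=
  (∏ s ∈ range p, (1 + C (1 / ((s : ℝ) + 1)) * X)) *
    ∏ s ∈ range q, (1 + C (1 / ((s : ℝ) + 1)) * X)

/-- elementary symmetric polynomials -/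
noncomputable def e (p q l : ℕ) : ℝ := (E p q).coeff l

/-- ratio of consecutive elementary symmetric polynomials -/
noncomputable def F (p q l : ℕ) : ℝ := e p q (l + 1) / e p q l

/-- the constants of the reverse Newton inequality -/
noncomputable def Th (l : ℕ) : ℝ :=
  if l = 0 then 1 else if l ≤ 15 then 13 / 10 + (l : ℝ) / 2 else if l ≤ 23 then 44 / 5
    else 1 + (l : ℝ) / 3

theorem E_right (p q : ℕ) : E p (q + 1) = E p q * (1 + C (1 / ((q : ℝ) + 1)) * X) := by
  unfold E
  rw [prod_range_succ (n := q)]
  ring

theorem E_left (p q : ℕ) : E (p + 1) q = E p q * (1 + C (1 / ((p : ℝ) + 1)) * X) := by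
  unfold E
  rw [prod_range_succ (n := p)]
  ring

theorem coeff_step (G : ℝ[X]) (x : ℝ) (l : ℕ) :
    (G * (1 + C x * X)).coeff (l + 1) = G.coeff (l + 1) + x * G.coeff l := by
  have h : G * (1 + C x * X) = G + C x * (G * X) := by ring
  rw [h, coeff_add, coeff_C_mul, coeff_mul_X]

theorem coeff_step_zero (G : ℝ[X]) (x : ℝ) :
    (G * (1 + C x * X)).coeff 0 = G.coeff 0 := by
  have h : G * (1 + C x * X) = G + C x * (G * X) := by ring
  rw [h, coeff_add, coeff_C_mul]
  simp

theorem e_right (p q l : ℕ) :
    e p (q + 1) (l + 1) = e p q (l + 1) + 1 / ((q : ℝ) + 1) * e p q l := by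
  unfold e
  rw [E_right, coeff_step]

theorem e_left (p q l : ℕ) :
    e (p + 1) q (l + 1) = e p q (l + 1) + 1 / ((p : ℝ) + 1) * e p q l := by
  unfold e
  rw [E_left, coeff_step]

theorem e_zero_zero (l : ℕ) : e 0 0 l = if l = 0 then 1 else 0 := by
  unfold e E
  simp [coeff_one]

theorem e_zero (p q : ℕ) : e p q 0 = 1 := by
  induction q with
  | zero =>
    induction p with
    | zero => simp [e_zero_zero]
    | succ p ih =>
      unfold e at *
      rw [E_left, coeff_step_zero, ih]
  | succ q ih =>
    unfold e at *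
    rw [E_right, coeff_step_zero, ih]

/-- induction principle: a property of sequences which holds for `(1, 0, 0, ...)` and is preserved
by adding one element holds for all `e p q` -/
theorem e_induction {M : (ℕ → ℝ) → Prop} (h0 : M (fun l => if l = 0 then 1 else 0))
    (hs : ∀ (a b : ℕ → ℝ) (x : ℝ), 0 < x → b 0 = a 0 → (∀ l, b (l + 1) = a (l + 1) + x * a l) →
      M a → M b) (p q : ℕ) : M (e p q) := by
  induction q with
  | zero =>
    induction p with
    | zero =>
      have : e 0 0 = (fun l => if l = 0 then (1 : ℝ) else 0) := by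
        funext l
        exact e_zero_zero l
      rw [this]
      exact h0
    | succ p ih =>
      refine hs (e p 0) _ (1 / ((p : ℝ) + 1)) (by positivity) ?_ (fun l => e_left p 0 l) ih
      rw [e_zero, e_zero]
  | succ q ih =>
    refine hs (e p q) _ (1 / ((q : ℝ) + 1)) (by positivity) ?_ (fun l => e_right p q l) ih
    rw [e_zero, e_zero]

theorem e_nonneg (p q l : ℕ) : 0 ≤ e p q l := by
  have h : ∀ l, 0 ≤ e p q l := by
    apply e_induction (M := fun a => ∀ l, 0 ≤ a l)
    · intro l
      show (0 : ℝ) ≤ if l = 0 then 1 else 0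
      split_ifs <;> norm_num
    · intro a b x hx hb0 hb ha l
      cases l with
      | zero => rw [hb0]; exact ha 0
      | succ l =>
        rw [hb]
        have h1 := ha (l + 1)
        have h2 := ha l
        positivity
  exact h l

theorem e_eq_zero (p q l : ℕ) (h : p + q < l) : e p q l = 0 := by
  induction q generalizing l with
  | zero =>
    induction p generalizing l with
    | zero =>
      rw [e_zero_zero, if_neg (by omega)]
    | succ p ih =>
      obtain ⟨l', rfl⟩ : ∃ l', l = l' + 1 := ⟨l - 1, by omega⟩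
      rw [e_left, ih _ (by omega), ih _ (by omega)]
      ring
  | succ q ih =>
    obtain ⟨l', rfl⟩ : ∃ l', l = l' + 1 := ⟨l - 1, by omega⟩
    rw [e_right, ih _ (by omega), ih _ (by omega)]
    ring

theorem e_pos (p q l : ℕ) (h : l ≤ p + q) : 0 < e p q l := by
  induction q generalizing l with
  | zero =>
    induction p generalizing l with
    | zero =>
      have : l = 0 := by omega
      rw [this, e_zero]
      norm_num
    | succ p ih =>
      cases l with
      | zero => rw [e_zero]; norm_num
      | succ l =>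
        rw [e_left]
        have h1 := e_nonneg p 0 (l + 1)
        have h2 := ih l (by omega)
        positivity
  | succ q ih =>
    cases l with
    | zero => rw [e_zero]; norm_num
    | succ l =>
      rw [e_right]
      have h1 := e_nonneg p q (l + 1)
      have h2 := ih l (by omega)
      positivity

theorem F_nonneg (p q l : ℕ) : 0 ≤ F p q l := div_nonneg (e_nonneg _ _ _) (e_nonneg _ _ _)

theorem F_pos (p q l : ℕ) (h : l + 1 ≤ p + q) : 0 < F p q l :=
  div_pos (e_pos _ _ _ h) (e_pos _ _ _ (by omega))

theorem F_eq_zero (p q l : ℕ) (h : p + q ≤ l) : F p q l = 0 := by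
  unfold F
  rw [e_eq_zero p q (l + 1) (by omega), zero_div]

end LQ
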