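import Pool.Agent.H65.LQ.Chain

/-!
# The remaining indices, for `n ≥ 41`
-/

set_option autoImplicit false

namespace LQ

open Polynomial Finset

theorem P_mid_low' (n i l : ℕ) (hi : i + 2 ≤ n) (hl : l < 2) : P n (i + 1) l = 0 := by
  obtain ⟨b, rfl⟩ : ∃ b, n = i + b + 2 := ⟨n - (i + 2), by omega⟩
  exact P_mid_low i b l hl

theorem P_zero_coeff (n i : ℕ) (h : i < n) : P n i 0 = 0 := by
  cases i with
  | zero =>
    obtain ⟨b, rfl⟩ : ∃ b, n = b + 1 := ⟨n - 1, by omega⟩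
    exact P_zero_low b
  | succ i => exact P_mid_low' n i 0 (by omega) (by omega)

theorem P_high (n i l : ℕ) (h : i < n) (hl : n < l) : P n i l = 0 := by
  cases i with
  | zero =>
    obtain ⟨b, rfl⟩ : ∃ b, n = b + 1 := ⟨n - 1, by omega⟩
    obtain ⟨t, rfl⟩ : ∃ t, l = t + 1 := ⟨l - 1, by omega⟩
    rw [P_zero, e_eq_zero 0 b t (by omega), zero_div]
  | succ i =>
    obtain ⟨b, rfl⟩ : ∃ b, n = i + b + 2 := ⟨n - (i + 2), by omega⟩
    obtain ⟨t, rfl⟩ : ∃ t, l = t + 2 := ⟨l - 2, by omega⟩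
    rw [P_mid, e_eq_zero i b t (by omega), zero_div]

theorem A_zero_coeff (n : ℕ) : ∀ k : ℕ, k < n → A n k 0 = 0
  | 0, h => P_zero_coeff n 0 h
  | 1, h => P_zero_coeff n 1 h
  | k + 2, h => by
    show A n k 0 + P n (k + 2) 0 = 0
    rw [A_zero_coeff n k (by omega), P_zero_coeff n (k + 2) h, add_zero]

theorem A_high (n l : ℕ) (hl : n < l) : ∀ k : ℕ, k < n → A n k l = 0
  | 0, h => P_high n 0 l h hl
  | 1, h => P_high n 1 l h hl
  | k + 2, h => by
    show A n k l + P n (k + 2) l = 0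
    rw [A_high n l hl k (by omega), P_high n (k + 2) l h hl, add_zero]

theorem F_split (p q : ℕ) : F p q 0 = F 0 p 0 + F 0 q 0 := by
  induction p with
  | zero =>
    have : F 0 0 0 = 0 := F_eq_zero 0 0 0 (by omega)
    rw [this, zero_add]
  | succ p ih =>
    rw [F_left_zero, F_right_zero, ih]
    ring

theorem F_split_le (p q m : ℕ) (hp : p ≤ m) (hq : q ≤ m) : F p q 0 ≤ 2 * F 0 m 0 := by
  have h1 := F_mono_q p (m - p) 0
  have h2 := F_mono_q q (m - q) 0
  rw [Nat.add_sub_cancel' hp] at h1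
  rw [Nat.add_sub_cancel' hq] at h2
  rw [F_split]
  linarith

theorem lin_bound (n p q : ℕ) (hp : p + 1 ≤ n) (hq : q + 1 ≤ n) : ∀ k : ℕ, k + 1 < n →
    A n k 1 * F p q 0 ≤ 2 * A n k 2
  | 0, h => by
    obtain ⟨m, rfl⟩ : ∃ m, n = m + 1 := ⟨n - 1, by omega⟩
    have h1 := P0_ratio m 0 (by omega)
    have h1' : P (m + 1) 0 2 = F 0 m 0 * P (m + 1) 0 1 := h1
    have h2 := P_nonneg (m + 1) 0 1 (by omega)
    have h3 := F_split_le p q m (by omega) (by omega)
    show P (m + 1) 0 1 * F p q 0 ≤ 2 * P (m + 1) 0 2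
    rw [h1']
    nlinarith [mul_le_mul_of_nonneg_left h3 h2]
  | 1, h => by
    have h1 : P n 1 1 = 0 := P_mid_low' n 0 1 (by omega) (by omega)
    have h2 := P_nonneg n 1 2 (by omega)
    show P n 1 1 * F p q 0 ≤ 2 * P n 1 2
    rw [h1]
    linarith
  | k + 2, h => by
    have ih := lin_bound n p q hp hq k (by omega)
    have h1 : P n (k + 2) 1 = 0 := P_mid_low' n (k + 1) 1 (by omega) (by omega)
    have h2 := P_nonneg n (k + 2) 2 (by omega)
    show (A n k 1 + P n (k + 2) 1) * F p q 0 ≤ 2 * (A n k 2 + P n (k + 2) 2)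
    rw [h1, add_zero]
    linarith

theorem logconc_two (n : ℕ) : ∀ k : ℕ, k + 1 < n → A n k 1 * A n k 3 ≤ A n k 2 ^ 2
  | 0, h => by
    obtain ⟨m, rfl⟩ : ∃ m, n = m + 1 := ⟨n - 1, by omega⟩
    exact P0_newton m 0
  | 1, h => by
    have h1 : P n 1 1 = 0 := P_mid_low' n 0 1 (by omega) (by omega)
    show P n 1 1 * P n 1 3 ≤ P n 1 2 ^ 2
    rw [h1, zero_mul]
    positivity
  | k + 2, h => by
    have ih := logconc_two n k (by omega)
    obtain ⟨b, rfl⟩ : ∃ b, n = (k + 1) + b + 2 := ⟨n - (k + 3), by omega⟩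
    have h1 : P ((k + 1) + b + 2) (k + 2) 1 = 0 := P_mid_low (k + 1) b 1 (by omega)
    have h2 := P_nonneg ((k + 1) + b + 2) (k + 2) 2 (by omega)
    have h3 : P ((k + 1) + b + 2) (k + 2) 3 = F (k + 1) b 0 * P ((k + 1) + b + 2) (k + 2) 2 :=
      P_ratio (k + 1) b 0 (by omega)
    have h4 := lin_bound ((k + 1) + b + 2) (k + 1) b (by omega) (by omega) k (by omega)
    have h5 := mul_le_mul_of_nonneg_right h4 h2
    show (A ((k + 1) + b + 2) k 1 + P ((k + 1) + b + 2) (k + 2) 1) *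
      (A ((k + 1) + b + 2) k 3 + P ((k + 1) + b + 2) (k + 2) 3) ≤
      (A ((k + 1) + b + 2) k 2 + P ((k + 1) + b + 2) (k + 2) 2) ^ 2
    rw [h1, h3]
    nlinarith [sq_nonneg (P ((k + 1) + b + 2) (k + 2) 2)]

/-- log-concavity of `A_k` for `n ≥ 41` -/
theorem logconc_large (n k l : ℕ) (hn : 41 ≤ n) (hk : 2 * k + 3 ≤ n) :
    A n k l * A n k (l + 2) ≤ A n k (l + 1) ^ 2 := by
  match l with
  | 0 =>
    rw [A_zero_coeff n k (by omega), zero_mul]
    positivity
  | 1 => exact logconc_two n k (by omega)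
  | t + 2 =>
    rcases le_or_gt (t + 4) n with h | h
    · exact logconc n t hn h k hk
    · have h1 : A n k (t + 2 + 2) = 0 := A_high n (t + 4) h k (by omega)
      rw [h1, mul_zero]
      positivity

end LQ
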