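import Pool.Agent.H65.LQ.Rn

/-!
# The ratios `F p q l = e (l+1) / e l`
-/

set_option autoImplicit false

namespace LQ

theorem F_right (p q l : ℕ) (h : l + 1 ≤ p + q) :
    F p (q + 1) (l + 1) = F p q l * (F p q (l + 1) + 1 / ((q : ℝ) + 1)) /
      (F p q l + 1 / ((q : ℝ) + 1)) := by
  unfold F
  rw [e_right p q (l + 1), e_right p q l]
  have h0 := e_pos p q l (by omega)
  have h1 := e_pos p q (l + 1) h
  have h2 : 0 < e p q (l + 1) + 1 / ((q : ℝ) + 1) * e p q l := by positivity
  have h3 : 0 < e p q (l + 1) / e p q l + 1 / ((q : ℝ) + 1) := by positivity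
  field_simp

theorem F_left (p q l : ℕ) (h : l + 1 ≤ p + q) :
    F (p + 1) q (l + 1) = F p q l * (F p q (l + 1) + 1 / ((p : ℝ) + 1)) /
      (F p q l + 1 / ((p : ℝ) + 1)) := by
  unfold F
  rw [e_left p q (l + 1), e_left p q l]
  have h0 := e_pos p q l (by omega)
  have h1 := e_pos p q (l + 1) h
  have h2 : 0 < e p q (l + 1) + 1 / ((p : ℝ) + 1) * e p q l := by positivity
  have h3 : 0 < e p q (l + 1) / e p q l + 1 / ((p : ℝ) + 1) := by positivity
  field_simp

theorem F_right_zero (p q : ℕ) : F p (q + 1) 0 = F p q 0 + 1 / ((q : ℝ) + 1) := by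
  unfold F
  rw [e_zero, e_zero, e_right p q 0, e_zero]
  ring

theorem F_left_zero (p q : ℕ) : F (p + 1) q 0 = F p q 0 + 1 / ((p : ℝ) + 1) := by
  unfold F
  rw [e_zero, e_zero, e_left p q 0, e_zero]
  ring

/-- Newton -/
theorem F_anti (p q l : ℕ) : ((l : ℝ) + 2) * F p q (l + 1) ≤ ((l : ℝ) + 1) * F p q l := by
  rcases le_or_gt (l + 1) (p + q) with h | h
  · unfold F
    have h0 := e_pos p q l (by omega)
    have h1 := e_pos p q (l + 1) h
    have h2 := newton p q l
    rw [← mul_div_assoc, ← mul_div_assoc, div_le_div_iff₀ h1 h0]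
    nlinarith
  · rw [F_eq_zero p q (l + 1) (by omega)]
    have := F_nonneg p q l
    have : 0 ≤ ((l : ℝ) + 1) * F p q l := by positivity
    linarith

theorem F_anti' (p q l : ℕ) : F p q (l + 1) ≤ F p q l := by
  have h := F_anti p q l
  have h0 := F_nonneg p q l
  have h1 := F_nonneg p q (l + 1)
  have hl : (0 : ℝ) ≤ l := by positivity
  nlinarith [mul_nonneg hl h1]

theorem add_ratio_ge (u v x : ℝ) (hu : 0 < u) (hx : 0 ≤ x) (hv : v ≤ u) :
    v ≤ u * (v + x) / (u + x) := by
  rw [le_div_iff₀ (by positivity)]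
  nlinarith

theorem F_mono_right (p q l : ℕ) : F p q l ≤ F p (q + 1) l := by
  cases l with
  | zero =>
    rw [F_right_zero]
    have : (0 : ℝ) < 1 / ((q : ℝ) + 1) := by positivity
    linarith
  | succ l =>
    rcases le_or_gt (l + 1) (p + q) with h | h
    · rw [F_right p q l h]
      exact add_ratio_ge _ _ _ (F_pos _ _ _ h) (by positivity) (F_anti' _ _ _)
    · rw [F_eq_zero p q (l + 1) (by omega)]
      exact F_nonneg _ _ _

theorem F_mono_left (p q l : ℕ) : F p q l ≤ F (p + 1) q l := by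
  cases l with
  | zero =>
    rw [F_left_zero]
    have : (0 : ℝ) < 1 / ((p : ℝ) + 1) := by positivity
    linarith
  | succ l =>
    rcases le_or_gt (l + 1) (p + q) with h | h
    · rw [F_left p q l h]
      exact add_ratio_ge _ _ _ (F_pos _ _ _ h) (by positivity) (F_anti' _ _ _)
    · rw [F_eq_zero p q (l + 1) (by omega)]
      exact F_nonneg _ _ _

/-- swapping `1/(q+1)` for the larger `1/(p+1)` -/
theorem F_swap (p q l : ℕ) (hpq : p ≤ q) : F p (q + 1) l ≤ F (p + 1) q l := by
  have hxy : 1 / ((q : ℝ) + 1) ≤ 1 / ((p : ℝ) + 1) := by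
    apply one_div_le_one_div_of_le (by positivity)
    have : (p : ℝ) ≤ q := by exact_mod_cast hpq
    linarith
  cases l with
  | zero =>
    rw [F_right_zero, F_left_zero]
    linarith
  | succ l =>
    rcases le_or_gt (l + 1) (p + q) with h | h
    · rw [F_right p q l h, F_left p q l h]
      have hu := F_pos p q l h
      have hv := F_anti' p q l
      have hv0 := F_nonneg p q (l + 1)
      have hx : (0 : ℝ) < 1 / ((q : ℝ) + 1) := by positivity
      have hy : (0 : ℝ) < 1 / ((p : ℝ) + 1) := by positivity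
      set u := F p q l
      set v := F p q (l + 1)
      set x := 1 / ((q : ℝ) + 1)
      set y := 1 / ((p : ℝ) + 1)
      rw [div_le_div_iff₀ (by positivity) (by positivity)]
      have : 0 ≤ u * ((y - x) * (u - v)) :=
        mul_nonneg hu.le (mul_nonneg (by linarith) (by linarith))
      nlinarith
    · rw [F_eq_zero p (q + 1) (l + 1) (by omega)]
      exact F_nonneg _ _ _

/-- the reverse Newton inequality for ratios -/
theorem rn_F (p q l : ℕ) (hpq : p ≤ q) (h : 38 ≤ p + q) (hl : l + 1 ≤ p + q) :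
    Th (l + 1) * (F p q l - F p q (l + 1)) ≤ F p q l + 1 / ((q : ℝ) + 1) := by
  have h0 := e_pos p q l (by omega)
  have h1 := e_pos p q (l + 1) hl
  have h2 := rn p q l hpq h
  have e1 : e p q (l + 1) ^ 2 - e p q l * e p q (l + 2) =
      (e p q l * e p q (l + 1)) * (F p q l - F p q (l + 1)) := by
    unfold F
    field_simp
  have e2 : e p q (l + 1) ^ 2 + 1 / ((q : ℝ) + 1) * e p q (l + 1) * e p q l =
      (e p q l * e p q (l + 1)) * (F p q l + 1 / ((q : ℝ) + 1)) := by
    unfold F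
    field_simp
  rw [e1, e2] at h2
  have h3 : 0 < e p q l * e p q (l + 1) := mul_pos h0 h1
  have h4 : (e p q l * e p q (l + 1)) * (Th (l + 1) * (F p q l - F p q (l + 1))) ≤
      (e p q l * e p q (l + 1)) * (F p q l + 1 / ((q : ℝ) + 1)) := by linarith
  exact le_of_mul_le_mul_left h4 h3

/-- the increment -/
theorem inc_bound (p q l : ℕ) (hpq : p ≤ q) (h : 38 ≤ p + q) (hl : l + 1 ≤ p + q) :
    (F (p + 1) q (l + 1) - F p (q + 1) (l + 1)) * (((q : ℝ) + 1) * (1 + ((p : ℝ) + 1) * F p q l) *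
      Th (l + 1)) ≤ ((q : ℝ) - p) * F p q l := by
  have hrn := rn_F p q l hpq h hl
  rw [F_right p q l hl, F_left p q l hl]
  have hu := F_pos p q l hl
  have hv0 := F_nonneg p q (l + 1)
  have hT := Th_ge_one (l + 1)
  have hp : (0 : ℝ) < (p : ℝ) + 1 := by positivity
  have hq : (0 : ℝ) < (q : ℝ) + 1 := by positivity
  have hpq' : (p : ℝ) ≤ q := by exact_mod_cast hpq
  set u := F p q l
  set v := F p q (l + 1)
  set T := Th (l + 1)
  have hux : 0 < u + 1 / ((q : ℝ) + 1) := by positivity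
  have huy : 0 < u + 1 / ((p : ℝ) + 1) := by positivity
  have e1 : (u * (v + 1 / ((p : ℝ) + 1)) / (u + 1 / ((p : ℝ) + 1)) -
      u * (v + 1 / ((q : ℝ) + 1)) / (u + 1 / ((q : ℝ) + 1))) *
      (((q : ℝ) + 1) * (1 + ((p : ℝ) + 1) * u) * T) =
      ((q : ℝ) - p) * u * ((T * (u - v)) / (u + 1 / ((q : ℝ) + 1))) := by
    field_simp
    ring
  rw [e1]
  have h5 : (T * (u - v)) / (u + 1 / ((q : ℝ) + 1)) ≤ 1 := by
    rw [div_le_one hux]
    exact hrn
  have h6 : 0 ≤ ((q : ℝ) - p) * u := mul_nonneg (by linarith) hu.le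
  calc ((q : ℝ) - p) * u * ((T * (u - v)) / (u + 1 / ((q : ℝ) + 1)))
      ≤ ((q : ℝ) - p) * u * 1 := mul_le_mul_of_nonneg_left h5 h6
    _ = ((q : ℝ) - p) * u := by ring

end LQ
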