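import Pool.Agent.H65.LQ.Low

/-!
# The key inequality

With `S_h = (a, d+2)`, `h = a + 1`: the increment `F (a+2) d (t+1) - F a (d+2) (t+1)` is small.
-/

set_option autoImplicit false

namespace LQ

/-- `(F (a+1) (d+1) t - F a (d+2) t) (1 + (a+1) R) (Th t - 1) ≤ R` for `t ≥ 1` -/
theorem first_inc (a d t : ℕ) (had : a ≤ d + 1) (hM : 37 ≤ a + d) (ht0 : 1 ≤ t)
    (ht : t ≤ a + d + 1) :
    (F (a + 1) (d + 1) t - F a (d + 2) t) * (1 + ((a : ℝ) + 1) * F a (d + 2) t) * (Th t - 1) ≤
      F a (d + 2) t := by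
  obtain ⟨r, rfl⟩ : ∃ r, t = r + 1 := ⟨t - 1, by omega⟩
  have hi := inc_bound a (d + 1) r (by omega) (by omega) (by omega)
  have hrn := rn_F a (d + 1) r (by omega) (by omega) (by omega)
  have hR := F_right a (d + 1) r (by omega)
  have hrpos := F_pos a (d + 1) r (by omega)
  have hanti := F_anti' a (d + 1) r
  have hmono := F_swap a (d + 1) (r + 1) (by omega)
  have hT := Th_ge_one (r + 1)
  have hRp := F_nonneg a (d + 1 + 1) (r + 1)
  change (F (a + 1) (d + 1) (r + 1) - F a (d + 1 + 1) (r + 1)) *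
    (1 + ((a : ℝ) + 1) * F a (d + 1 + 1) (r + 1)) * (Th (r + 1) - 1) ≤ F a (d + 1 + 1) (r + 1)
  set R1 := F (a + 1) (d + 1) (r + 1)
  set R := F a (d + 1 + 1) (r + 1)
  set v := F a (d + 1) r
  set w := F a (d + 1) (r + 1)
  set T := Th (r + 1)
  push_cast at hi hrn hR
  have hx : (0 : ℝ) < 1 / ((d : ℝ) + 1 + 1) := by positivity
  set x := 1 / ((d : ℝ) + 1 + 1)
  -- `R ≤ v`
  have hRv : R ≤ v := by
    rw [hR, div_le_iff₀ (by positivity)]
    exact mul_le_mul_of_nonneg_left (by linarith) hrpos.le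
  -- `(T - 1) v ≤ T R`
  have hTR : (T - 1) * v ≤ T * R := by
    rw [hR, ← mul_div_assoc, le_div_iff₀ (by positivity)]
    nlinarith
  -- the increment
  have ha : (0 : ℝ) < (a : ℝ) + 1 := by positivity
  have hd : (0 : ℝ) < (d : ℝ) + 1 + 1 := by positivity
  have hinc : (R1 - R) * (1 + ((a : ℝ) + 1) * v) * T ≤ v := by
    have h1 : ((d : ℝ) + 1 - a) * v ≤ ((d : ℝ) + 1 + 1) * v := by
      apply mul_le_mul_of_nonneg_right _ hrpos.le
      have : (0 : ℝ) ≤ a := by positivity
      linarith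
    have h2 : ((d : ℝ) + 1 + 1) * ((R1 - R) * (1 + ((a : ℝ) + 1) * v) * T) ≤
        ((d : ℝ) + 1 + 1) * v := by nlinarith
    exact le_of_mul_le_mul_left h2 hd
  have hinc0 : 0 ≤ R1 - R := by linarith
  have h3 : (R1 - R) * (1 + ((a : ℝ) + 1) * v) * T * (T - 1) ≤ T * R := by
    have : (R1 - R) * (1 + ((a : ℝ) + 1) * v) * T * (T - 1) ≤ v * (T - 1) :=
      mul_le_mul_of_nonneg_right hinc (by linarith)
    linarith
  have h4 : (R1 - R) * (1 + ((a : ℝ) + 1) * v) * (T - 1) ≤ R := by
    have h5 : T * ((R1 - R) * (1 + ((a : ℝ) + 1) * v) * (T - 1)) ≤ T * R := by nlinarith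
    exact le_of_mul_le_mul_left h5 (by linarith)
  have h6 : (R1 - R) * (1 + ((a : ℝ) + 1) * R) * (T - 1) ≤
      (R1 - R) * (1 + ((a : ℝ) + 1) * v) * (T - 1) := by
    apply mul_le_mul_of_nonneg_right _ (by linarith)
    apply mul_le_mul_of_nonneg_left _ hinc0
    have := mul_le_mul_of_nonneg_left hRv ha.le
    linarith
  linarith

/-- real inequality: case `κ = 1` -/
theorem kappaA (h R u : ℝ) (_hh : 0 ≤ h) (_hR : 0 ≤ R) (_hu : 0 ≤ u) (hd : u - R ≤ R * u) :
    (1 + h * R) * u ≤ R * (1 + (h + 1) * u) := by nlinarith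

/-- the second increment is at most `κ` times the model value -/
theorem second_inc (a d t : ℕ) (had : a ≤ d + 1) (hM : 37 ≤ a + d) (ht : t ≤ a + d + 1)
    (κ : ℝ) (hκ1 : 1 ≤ κ) (hκ : 8 ≤ t → κ = Th t / (Th t - 1)) :
    (1 + ((a : ℝ) + 1) * F a (d + 2) t) * F (a + 1) d t ≤
      κ * F a (d + 2) t * (1 + ((a : ℝ) + 2) * F (a + 1) d t) := by
  have hu0 := F_nonneg (a + 1) d t
  have hR0 := F_nonneg a (d + 2) t
  have hu1 := F_mono_right (a + 1) d t
  have ha : (0 : ℝ) ≤ (a : ℝ) + 1 := by positivity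
  -- it is enough to do the case `u ≥ R`
  rcases le_or_gt (F (a + 1) d t) (F a (d + 2) t) with hle | hgt
  · have h1 := kappaA ((a : ℝ) + 1) (F a (d + 2) t) (F (a + 1) d t) ha hR0 hu0 (by
      have := mul_nonneg hR0 hu0
      linarith)
    have h2 : 0 ≤ F a (d + 2) t * (1 + ((a : ℝ) + 1 + 1) * F (a + 1) d t) := by positivity
    have h3 : F a (d + 2) t * (1 + ((a : ℝ) + 1 + 1) * F (a + 1) d t) ≤
        κ * (F a (d + 2) t * (1 + ((a : ℝ) + 1 + 1) * F (a + 1) d t)) := by nlinarith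
    have e1 : κ * F a (d + 2) t * (1 + ((a : ℝ) + 2) * F (a + 1) d t) =
        κ * (F a (d + 2) t * (1 + ((a : ℝ) + 1 + 1) * F (a + 1) d t)) := by ring
    rw [e1]
    linarith
  rcases le_or_gt t 7 with h7 | h7
  · -- `κ ≥ 1` is enough
    have hd : F (a + 1) d t - F a (d + 2) t ≤ F a (d + 2) t * F (a + 1) d t := by
      rcases Nat.eq_zero_or_pos t with h0 | h0
      · subst h0
        have hl := low_zero a (d + 2) (by omega) (by omega)
        have e1 := F_left_zero a (d + 1)
        have e2 := F_right_zero a (d + 1)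
        have e3 : F a (d + 2) 0 = F a (d + 1) 0 + 1 / (((d + 1 : ℕ) : ℝ) + 1) := e2
        have h1 : 1 / ((a : ℝ) + 1) ≤ 1 := by
          rw [div_le_one (by positivity)]
          have : (0 : ℝ) ≤ a := by positivity
          linarith
        have h2 : (0 : ℝ) ≤ 1 / (((d + 1 : ℕ) : ℝ) + 1) := by positivity
        have h3 : F (a + 1) d 0 - F a (d + 2) 0 ≤ 1 := by linarith
        have h4 : 1 ≤ F a (d + 2) 0 * F (a + 1) d 0 := by nlinarith
        linarith
      · have hl := low_succ a (d + 2) t (by omega) (by omega) h0 h7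
        have hf := first_inc a d t had hM h0 ht
        set R := F a (d + 2) t
        set u := F (a + 1) d t
        set R1 := F (a + 1) (d + 1) t
        set T := Th t
        have hT1 : 0 < T - 1 := by
          have : 0 < (T - 1) * R := by linarith
          rcases lt_trichotomy (T - 1) 0 with h | h | h
          · exact absurd (mul_nonpos_of_nonpos_of_nonneg h.le hR0) (by linarith)
          · rw [h, zero_mul] at this; exact absurd this (lt_irrefl _)
          · exact h
        have h1 : (u - R) * (1 + ((a : ℝ) + 1) * R) * (T - 1) ≤ R := by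
          have : (u - R) * (1 + ((a : ℝ) + 1) * R) * (T - 1) ≤
              (R1 - R) * (1 + ((a : ℝ) + 1) * R) * (T - 1) := by
            apply mul_le_mul_of_nonneg_right _ hT1.le
            apply mul_le_mul_of_nonneg_right (by linarith)
            positivity
          linarith
        have h2 : (u - R) * (T - 1) ≤ R := by
          have h3 : 0 ≤ (u - R) * (T - 1) := mul_nonneg (by linarith) hT1.le
          have h4 : 0 ≤ ((a : ℝ) + 1) * R := by positivity
          nlinarith [mul_nonneg h3 h4]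
        have h5 : (u - R) * (T - 1) ≤ (R * u) * (T - 1) := by
          have h6 : R ≤ (R * u) * (T - 1) := by
            have : 1 ≤ (T - 1) * u := by
              have := mul_le_mul_of_nonneg_left hgt.le hT1.le
              linarith
            have := mul_le_mul_of_nonneg_left this hR0
            linarith
          linarith
        exact le_of_mul_le_mul_right h5 hT1
    have h1 := kappaA ((a : ℝ) + 1) (F a (d + 2) t) (F (a + 1) d t) ha hR0 hu0 hd
    have h2 : 0 ≤ F a (d + 2) t * (1 + ((a : ℝ) + 1 + 1) * F (a + 1) d t) := by positivity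
    have h3 : F a (d + 2) t * (1 + ((a : ℝ) + 1 + 1) * F (a + 1) d t) ≤
        κ * (F a (d + 2) t * (1 + ((a : ℝ) + 1 + 1) * F (a + 1) d t)) := by nlinarith
    have e1 : κ * F a (d + 2) t * (1 + ((a : ℝ) + 2) * F (a + 1) d t) =
        κ * (F a (d + 2) t * (1 + ((a : ℝ) + 1 + 1) * F (a + 1) d t)) := by ring
    rw [e1]
    linarith
  · have hk := hκ (by omega)
    have hf := first_inc a d t had hM (by omega) ht
    have hT2 : 1 < Th t := by
      unfold Th
      split_ifs with h1 h2 h3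
      · omega
      · have : (8 : ℝ) ≤ t := by exact_mod_cast h7
        linarith
      · norm_num
      · have : (8 : ℝ) ≤ t := by exact_mod_cast h7
        linarith
    set R := F a (d + 2) t
    set u := F (a + 1) d t
    set R1 := F (a + 1) (d + 1) t
    set T := Th t
    have hT1 : 0 < T - 1 := by linarith
    -- `(T - 1) u ≤ T R`
    have h1 : (u - R) * (T - 1) ≤ R := by
      have h2 : (u - R) * (1 + ((a : ℝ) + 1) * R) * (T - 1) ≤ R := by
        have : (u - R) * (1 + ((a : ℝ) + 1) * R) * (T - 1) ≤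
            (R1 - R) * (1 + ((a : ℝ) + 1) * R) * (T - 1) := by
          apply mul_le_mul_of_nonneg_right _ hT1.le
          apply mul_le_mul_of_nonneg_right (by linarith)
          positivity
        linarith
      have h3 : 0 ≤ (u - R) * (T - 1) := mul_nonneg (by linarith) hT1.le
      have h4 : 0 ≤ ((a : ℝ) + 1) * R := by positivity
      nlinarith [mul_nonneg h3 h4]
    have h5 : u ≤ κ * R := by
      rw [hk, div_mul_eq_mul_div, le_div_iff₀ hT1]
      linarith
    have h6 : (1 + ((a : ℝ) + 1) * R) * u ≤ (1 + ((a : ℝ) + 1) * R) * (κ * R) :=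
      mul_le_mul_of_nonneg_left h5 (by positivity)
    have h7 : κ * R * (1 + ((a : ℝ) + 1) * R) ≤ κ * R * (1 + ((a : ℝ) + 2) * u) := by
      apply mul_le_mul_of_nonneg_left _ (by positivity)
      nlinarith [mul_nonneg ha (show (0 : ℝ) ≤ u - R by linarith)]
    linarith

/-- **The key inequality.** -/
theorem key (a d t : ℕ) (had : a + 1 ≤ d) (hM : 37 ≤ a + d) (ht : t ≤ a + d) (s : ℝ)
    (hs : 0 < s) (hs2 : s ^ 2 = (t : ℝ) + 2) :
    s * (((d : ℝ) + 3) * (1 + ((a : ℝ) + 1) * F a (d + 2) t)) *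
        (F (a + 2) d (t + 1) - F a (d + 2) (t + 1)) ≤
      ((d : ℝ) + 2 - a) * ((s + 1) * F a (d + 2) t - s * F a (d + 2) (t + 1)) := by
  have hi1 := inc_bound a (d + 1) t (by omega) (by omega) (by omega)
  have hi2 := inc_bound (a + 1) d t (by omega) (by omega) (by omega)
  have hN := F_anti a (d + 2) t
  have hρ := F_mono_right a (d + 1) t
  have hρ0 := F_pos a (d + 1) t (by omega)
  have hu0 := F_nonneg (a + 1) d t
  have hR0 : 0 < F a (d + 2) t := F_pos _ _ _ (by omega)
  have hT := Th_ge_one (t + 1)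
  have hsw1 := F_swap a (d + 1) (t + 1) (by omega)
  have hsw2 := F_swap (a + 1) d (t + 1) (by omega)
  obtain ⟨κ, hκ1, hκ, hreq⟩ : ∃ κ : ℝ, 1 ≤ κ ∧ (8 ≤ t → κ = Th t / (Th t - 1)) ∧
      (1 + κ) * ((t : ℝ) + 2) ≤ Th (t + 1) * (s + 1) := by
    rcases le_or_gt t 7 with h | h
    · refine ⟨1, le_rfl, fun h8 => absurd h8 (by omega), ?_⟩
      have := reqA t h s hs.le hs2
      linarith
    · refine ⟨Th t / (Th t - 1), ?_, fun _ => rfl, reqB t h s hs.le hs2⟩
      have hT2 : 1 < Th t := by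
        unfold Th
        split_ifs with h1 h2 h3
        · omega
        · have : (8 : ℝ) ≤ t := by exact_mod_cast h
          linarith
        · norm_num
        · have : (8 : ℝ) ≤ t := by exact_mod_cast h
          linarith
      rw [le_div_iff₀ (by linarith)]
      linarith
  have hk := second_inc a d t (by omega) hM (by omega) κ hκ1 hκ
  push_cast at hi1 hi2
  change s * (((d : ℝ) + 3) * (1 + ((a : ℝ) + 1) * F a (d + 1 + 1) t)) *
        (F (a + 1 + 1) d (t + 1) - F a (d + 1 + 1) (t + 1)) ≤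
      ((d : ℝ) + 2 - a) * ((s + 1) * F a (d + 1 + 1) t - s * F a (d + 1 + 1) (t + 1))
  change (1 + ((a : ℝ) + 1) * F a (d + 1 + 1) t) * F (a + 1) d t ≤
      κ * F a (d + 1 + 1) t * (1 + ((a : ℝ) + 2) * F (a + 1) d t) at hk
  change 0 < F a (d + 1 + 1) t at hR0
  change ((t : ℝ) + 2) * F a (d + 1 + 1) (t + 1) ≤ ((t : ℝ) + 1) * F a (d + 1 + 1) t at hN
  set R := F a (d + 1 + 1) t
  set R' := F a (d + 1 + 1) (t + 1)
  set R1' := F (a + 1) (d + 1) (t + 1)
  set R2' := F (a + 1 + 1) d (t + 1)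
  set ρ := F a (d + 1) t
  set u := F (a + 1) d t
  set T := Th (t + 1)
  set A := (a : ℝ)
  set D := (d : ℝ)
  have hA : 0 ≤ A := by positivity
  have hAD : A + 1 ≤ D := by
    have : ((a + 1 : ℕ) : ℝ) ≤ (d : ℝ) := by exact_mod_cast had
    push_cast at this
    exact this
  have hTp : 0 < T := by linarith
  -- first increment
  have h1 : ((D + 3) * (1 + (A + 1) * R)) * (R1' - R') * T ≤ (D + 2 - A) * R := by
    have hW : 0 < (D + 1 + 1) * (1 + (A + 1) * ρ) := by positivity
    have h2 : (R1' - R') * T ≤ (D + 1 - A) * ρ / ((D + 1 + 1) * (1 + (A + 1) * ρ)) := by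
      rw [le_div_iff₀ hW]
      linarith
    have h3 : ((D + 3) * (1 + (A + 1) * R)) * ((R1' - R') * T) ≤
        ((D + 3) * (1 + (A + 1) * R)) *
          ((D + 1 - A) * ρ / ((D + 1 + 1) * (1 + (A + 1) * ρ))) :=
      mul_le_mul_of_nonneg_left h2 (by positivity)
    have h4 : ((D + 3) * (1 + (A + 1) * R)) *
          ((D + 1 - A) * ρ / ((D + 1 + 1) * (1 + (A + 1) * ρ))) ≤ (D + 2 - A) * R := by
      rw [← mul_div_assoc, div_le_iff₀ hW]
      have h5 : (D + 3) * (D + 1 - A) ≤ (D + 2 - A) * (D + 1 + 1) := by nlinarith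
      have h6 : (1 + (A + 1) * R) * ρ ≤ R * (1 + (A + 1) * ρ) := by nlinarith
      have h7 : ((D + 3) * (D + 1 - A)) * ((1 + (A + 1) * R) * ρ) ≤
          ((D + 2 - A) * (D + 1 + 1)) * (R * (1 + (A + 1) * ρ)) :=
        mul_le_mul h5 h6 (by positivity) (mul_nonneg (by linarith) (by linarith))
      nlinarith
    nlinarith
  -- second increment
  have h2 : ((D + 3) * (1 + (A + 1) * R)) * (R2' - R1') * T ≤ (D + 2 - A) * (κ * R) := by
    have hW : 0 < (D + 1) * (1 + (A + 1 + 1) * u) := by positivity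
    have h2 : (R2' - R1') * T ≤ (D - (A + 1)) * u / ((D + 1) * (1 + (A + 1 + 1) * u)) := by
      rw [le_div_iff₀ hW]
      linarith
    have h3 : ((D + 3) * (1 + (A + 1) * R)) * ((R2' - R1') * T) ≤
        ((D + 3) * (1 + (A + 1) * R)) *
          ((D - (A + 1)) * u / ((D + 1) * (1 + (A + 1 + 1) * u))) :=
      mul_le_mul_of_nonneg_left h2 (by positivity)
    have h4 : ((D + 3) * (1 + (A + 1) * R)) *
          ((D - (A + 1)) * u / ((D + 1) * (1 + (A + 1 + 1) * u))) ≤ (D + 2 - A) * (κ * R) := by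
      rw [← mul_div_assoc, div_le_iff₀ hW]
      have h5 : (D + 3) * (D - (A + 1)) ≤ (D + 2 - A) * (D + 1) := by nlinarith
      have h7 : ((D + 3) * (D - (A + 1))) * ((1 + (A + 1) * R) * u) ≤
          ((D + 2 - A) * (D + 1)) * (κ * R * (1 + (A + 2) * u)) :=
        mul_le_mul h5 hk (by positivity) (mul_nonneg (by linarith) (by linarith))
      nlinarith
    nlinarith
  -- the right hand side
  have h3 : (s + 1) * R ≤ s * ((s + 1) * R - s * R') := by
    have h4 : s ^ 2 * R' ≤ (s ^ 2 - 1) * R := by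
      rw [hs2]
      linarith
    nlinarith
  -- combination: `s² (1+κ) ≤ T (s+1)`
  have h5 : ((D + 3) * (1 + (A + 1) * R)) * (R2' - R') * T ≤ (D + 2 - A) * ((1 + κ) * R) := by
    nlinarith
  have h6 : (s ^ 2 * ((D + 3) * (1 + (A + 1) * R)) * (R2' - R')) * T ≤
      ((D + 2 - A) * (s * ((s + 1) * R - s * R'))) * T := by
    have h7 : s ^ 2 * (((D + 3) * (1 + (A + 1) * R)) * (R2' - R') * T) ≤
        s ^ 2 * ((D + 2 - A) * ((1 + κ) * R)) := mul_le_mul_of_nonneg_left h5 (by positivity)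
    have h8 : s ^ 2 * ((D + 2 - A) * ((1 + κ) * R)) =
        (D + 2 - A) * R * ((1 + κ) * ((t : ℝ) + 2)) := by rw [hs2]; ring
    have h9 : (D + 2 - A) * R * ((1 + κ) * ((t : ℝ) + 2)) ≤
        (D + 2 - A) * R * (T * (s + 1)) :=
      mul_le_mul_of_nonneg_left hreq (mul_nonneg (by linarith) hR0.le)
    have h10 : (D + 2 - A) * T * ((s + 1) * R) ≤
        (D + 2 - A) * T * (s * ((s + 1) * R - s * R')) :=
      mul_le_mul_of_nonneg_left h3 (mul_nonneg (by linarith) hTp.le)
    nlinarith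
  have h7 := le_of_mul_le_mul_right h6 hTp
  have h8 : s * (s * ((D + 3) * (1 + (A + 1) * R)) * (R2' - R')) ≤
      s * ((D + 2 - A) * ((s + 1) * R - s * R')) := by nlinarith
  exact le_of_mul_le_mul_left h8 hs

end LQ
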