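import Pool.Agent.H65.LQ.Key

/-!
# The base case of the comparison, `h = 0`
-/

set_option autoImplicit false

namespace LQ

theorem low38_chk : ∀ t ∈ List.range 3, (runL 38 [1]).getD t 0 ≤
    (runL 38 [1]).getD (t + 1) 0 := by decide +kernel

theorem low38 (m t : ℕ) (hm : 38 ≤ m) (ht : t ≤ 2) : 1 ≤ F 0 m t := by
  have h0 := low38_chk t (List.mem_range.mpr (by omega))
  have h0' : ((runL 38 [1]).getD t 0 : ℝ) ≤ ((runL 38 [1]).getD (t + 1) 0 : ℝ) := by
    exact_mod_cast h0
  rw [run_q, run_q] at h0'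
  have hf : (0 : ℝ) < ((38 : ℕ).factorial : ℝ) := by positivity
  have h1 : e 0 38 t ≤ e 0 38 (t + 1) := le_of_mul_le_mul_left h0' hf
  have h2 : 1 ≤ F 0 38 t := by
    unfold F
    rw [le_div_iff₀ (e_pos 0 38 t (by omega))]
    linarith
  obtain ⟨k, rfl⟩ : ∃ k, m = 38 + k := ⟨m - 38, by omega⟩
  exact h2.trans (F_mono_q 38 k t)

theorem key0_real (t : ℕ) (s T y0 y1 : ℝ) (hs : 0 < s) (hs2 : s ^ 2 = (t : ℝ) + 2)
    (hT : T = Th (t + 1)) (hy0 : 0 < y0) (hN : ((t : ℝ) + 2) * y1 ≤ ((t : ℝ) + 1) * y0)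
    (hlow : t ≤ 2 → 1 ≤ y0) : s * (y1 + 1) * T ≤ (s + 1) * (T - 1) * (y0 + 1) := by
  have hy1 : y1 ≤ y0 := by
    have : (0 : ℝ) ≤ t := by positivity
    by_contra h
    push Not at h
    nlinarith
  rcases le_or_gt t 2 with h2 | h2
  · have hy := hlow h2
    rw [Th_small (t + 1) (by omega) (by omega)] at hT
    interval_cases t
    · norm_num at hN hT hs2
      have hs3 : s ≤ 1415 / 1000 := by nlinarith
      rw [hT]
      nlinarith
    · norm_num at hN hT hs2
      have hs3 : s ≤ 1733 / 1000 := by nlinarith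
      rw [hT]
      nlinarith
    · norm_num at hN hT hs2
      have hs3 : s = 2 := by nlinarith
      rw [hT, hs3]
      nlinarith
  · -- `s ≤ T - 1`
    have hsT : s ≤ T - 1 := by
      rw [hT]
      rcases le_or_gt (t + 1) 15 with h3 | h3
      · rw [Th_small (t + 1) (by omega) h3]
        have ht : (3 : ℝ) ≤ t := by exact_mod_cast h2
        apply le_of_sq_le_sq _ (by push_cast; linarith)
        rw [hs2]
        push_cast
        nlinarith
      rcases le_or_gt (t + 1) 23 with h4 | h4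
      · rw [Th_mid (t + 1) (by omega) h4]
        apply le_of_sq_le_sq _ (by norm_num)
        rw [hs2]
        have : ((t + 1 : ℕ) : ℝ) ≤ 23 := by exact_mod_cast h4
        push_cast at this
        norm_num
        linarith
      · rw [Th_large (t + 1) (by omega)]
        have : ((23 : ℕ) : ℝ) < ((t + 1 : ℕ) : ℝ) := by exact_mod_cast h4
        push_cast at this
        apply le_of_sq_le_sq _ (by push_cast; linarith)
        rw [hs2]
        push_cast
        nlinarith
    have hT1 : 0 < T := by linarith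
    have h5 : s * T ≤ (s + 1) * (T - 1) := by nlinarith
    have h6 : s * (y1 + 1) * T ≤ s * (y0 + 1) * T := by
      apply mul_le_mul_of_nonneg_right _ hT1.le
      apply mul_le_mul_of_nonneg_left _ hs.le
      linarith
    nlinarith

/-- **The base inequality.** -/
theorem key0 (m t : ℕ) (hm : 38 ≤ m) (ht : t + 1 ≤ m) (s : ℝ) (hs : 0 < s)
    (hs2 : s ^ 2 = (t : ℝ) + 2) : s * F 1 m (t + 1) ≤ (s + 1) * F 0 (m + 2) (t + 1) := by
  have hrn := rn_F 0 m t (by omega) (by omega) (by omega)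
  have hN := F_anti 0 m t
  have hy0 := F_pos 0 m t (by omega)
  have hy1 := F_nonneg 0 m (t + 1)
  have e1 := F_left 0 m t (by omega)
  have e2 := F_right 0 m t (by omega)
  have h3 := F_mono_right 0 (m + 1) (t + 1)
  have hk := key0_real t s (Th (t + 1)) (F 0 m t) (F 0 m (t + 1)) hs hs2 rfl hy0 hN
    (fun h => low38 m t hm h)
  have hT := Th_ge_one (t + 1)
  have hx : (0 : ℝ) < 1 / ((m : ℝ) + 1) := by positivity
  change s * F (0 + 1) m (t + 1) ≤ (s + 1) * F 0 (m + 1 + 1) (t + 1)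
  have h4 : s * F (0 + 1) m (t + 1) ≤ (s + 1) * F 0 (m + 1) (t + 1) := by
    rw [e1, e2]
    have e3 : (1 : ℝ) / (((0 : ℕ) : ℝ) + 1) = 1 := by norm_num
    rw [e3]
    set y0 := F 0 m t
    set y1 := F 0 m (t + 1)
    set x := 1 / ((m : ℝ) + 1)
    set T := Th (t + 1)
    rw [← mul_div_assoc, ← mul_div_assoc, div_le_div_iff₀ (by positivity) (by positivity)]
    -- `T (y1 + x) ≥ (T - 1) (y0 + x)`
    have h5 : (T - 1) * (y0 + x) ≤ T * (y1 + x) := by linarith
    have hTp : 0 < T := by linarith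
    have h6 : T * (s * (y0 * (y1 + 1)) * (y0 + x)) ≤ T * ((s + 1) * (y0 * (y1 + x)) * (y0 + 1)) := by
      have h7 : (s * (y1 + 1) * T) * (y0 * (y0 + x)) ≤
          ((s + 1) * (T - 1) * (y0 + 1)) * (y0 * (y0 + x)) :=
        mul_le_mul_of_nonneg_right hk (by positivity)
      have h8 : ((s + 1) * (y0 + 1) * y0) * ((T - 1) * (y0 + x)) ≤
          ((s + 1) * (y0 + 1) * y0) * (T * (y1 + x)) :=
        mul_le_mul_of_nonneg_left h5 (by positivity)
      nlinarith
    exact le_of_mul_le_mul_left h6 hTp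
  have h9 : (s + 1) * F 0 (m + 1) (t + 1) ≤ (s + 1) * F 0 (m + 1 + 1) (t + 1) :=
    mul_le_mul_of_nonneg_left h3 (by linarith)
  exact h4.trans h9

end LQ
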