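import Pool.Agent.H65.LQ.Req

/-!
# Lower bounds for `F a b t`, `a + b ≥ 39`, `t ≤ 7`
-/

set_option autoImplicit false

namespace LQ

theorem F_chain (a : ℕ) : ∀ m t : ℕ, a ≤ m + 1 → F 0 (a + m) t ≤ F a m t := by
  induction a with
  | zero => intro m t _; rw [zero_add]
  | succ a ih =>
    intro m t h
    have h1 := ih (m + 1) t (by omega)
    have h2 := F_swap a m t (by omega)
    have e1 : a + 1 + m = a + (m + 1) := by ring
    rw [e1]
    exact h1.trans h2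

theorem F_mono_q (m k t : ℕ) : F 0 m t ≤ F 0 (m + k) t := by
  induction k with
  | zero => rfl
  | succ k ih => exact ih.trans (F_mono_right 0 (m + k) t)

theorem low_chk : ((runL 39 [1]).getD 0 0 ≤ (runL 39 [1]).getD 1 0) ∧
    ∀ t ∈ List.range 7, 10 * (runL 39 [1]).getD (t + 1) 0 ≤
      (8 + 5 * t) * (runL 39 [1]).getD (t + 2) 0 := by decide +kernel

theorem F_39 (t : ℕ) (c : ℝ) (_hc : 0 < c) (ht : t ≤ 39)
    (h : c * ((runL 39 [1]).getD t 0 : ℝ) ≤ ((runL 39 [1]).getD (t + 1) 0 : ℝ)) :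
    c ≤ F 0 39 t := by
  rw [run_q, run_q] at h
  unfold F
  rw [le_div_iff₀ (e_pos 0 39 t (by omega))]
  have hf : (0 : ℝ) < ((39 : ℕ).factorial : ℝ) := by positivity
  have h2 : ((39 : ℕ).factorial : ℝ) * (c * e 0 39 t) ≤
      ((39 : ℕ).factorial : ℝ) * e 0 39 (t + 1) := by linarith
  exact le_of_mul_le_mul_left h2 hf

theorem low_zero (a b : ℕ) (hab : a ≤ b + 1) (h : 39 ≤ a + b) : 1 ≤ F a b 0 := by
  have h1 : (1 : ℝ) ≤ F 0 39 0 := by
    apply F_39 0 1 one_pos (by norm_num)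
    rw [one_mul]
    exact_mod_cast low_chk.1
  obtain ⟨k, hk⟩ : ∃ k, a + b = 39 + k := ⟨a + b - 39, by omega⟩
  have h2 := F_mono_q 39 k 0
  rw [← hk] at h2
  exact h1.trans (h2.trans (F_chain a b 0 hab))

theorem low_succ (a b t : ℕ) (hab : a ≤ b + 1) (h : 39 ≤ a + b) (ht0 : 1 ≤ t) (ht : t ≤ 7) :
    1 ≤ (Th t - 1) * F a b t := by
  obtain ⟨r, rfl⟩ : ∃ r, t = r + 1 := ⟨t - 1, by omega⟩
  have hr : r < 7 := by omega
  have h0 := low_chk.2 r (List.mem_range.mpr hr)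
  have h0' : (10 : ℝ) * ((runL 39 [1]).getD (r + 1) 0 : ℝ) ≤
      (8 + 5 * (r : ℝ)) * ((runL 39 [1]).getD (r + 2) 0 : ℝ) := by exact_mod_cast h0
  have hp : (0 : ℝ) < 8 + 5 * (r : ℝ) := by positivity
  have h1 : (10 / (8 + 5 * (r : ℝ))) ≤ F 0 39 (r + 1) := by
    apply F_39 (r + 1) _ (by positivity) (by omega)
    rw [div_mul_eq_mul_div, div_le_iff₀ hp]
    linarith
  obtain ⟨k, hk⟩ : ∃ k, a + b = 39 + k := ⟨a + b - 39, by omega⟩
  have h2 := F_mono_q 39 k (r + 1)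
  rw [← hk] at h2
  have h3 := h1.trans (h2.trans (F_chain a b (r + 1) hab))
  rw [div_le_iff₀ hp] at h3
  rw [Th_small (r + 1) (by omega) (by omega)]
  push_cast
  nlinarith

end LQ
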