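import Pool.Agent.H65.LQ.Def

/-!
# Newton's inequality for `e p q`
-/

set_option autoImplicit false

namespace LQ

theorem newton_core (k A B C D x : ℝ) (hk : 0 ≤ k) (hA : 0 ≤ A) (hB : 0 ≤ B) (hC : 0 ≤ C)
    (_hD : 0 ≤ D) (hx : 0 ≤ x) (hBC : B = 0 → C = 0) (hCD : C = 0 → D = 0)
    (h1 : (k + 2) * (B * D) ≤ (k + 1) * C ^ 2) (h0 : (k + 1) * (A * C) ≤ k * B ^ 2) :
    (k + 2) * ((B + x * A) * (D + x * C)) ≤ (k + 1) * (C + x * B) ^ 2 := by
  rcases eq_or_lt_of_le hC with hC0 | hCp
  · have hD0 := hCD hC0.symm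
    rw [← hC0, hD0]
    have : 0 ≤ (k + 1) * (0 + x * B) ^ 2 := by positivity
    nlinarith
  have hBp : 0 < B := by
    rcases eq_or_lt_of_le hB with h | h
    · exact absurd (hBC h.symm) hCp.ne'
    · exact h
  -- (k+2) A D ≤ k B C
  have hAD : (k + 2) * (A * D) ≤ k * (B * C) := by
    have h2 : ((k + 2) * (B * D)) * ((k + 1) * (A * C)) ≤ ((k + 1) * C ^ 2) * (k * B ^ 2) :=
      mul_le_mul h1 h0 (by positivity) (by positivity)
    have h3 : ((k + 2) * (A * D)) * ((k + 1) * (B * C)) ≤ (k * (B * C)) * ((k + 1) * (B * C)) := by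
      nlinarith
    exact le_of_mul_le_mul_right h3 (by positivity)
  -- (k+2) A C ≤ (k+1) B^2
  have hAC : (k + 2) * (A * C) ≤ (k + 1) * B ^ 2 := by
    have h4 : (k + 1) * ((k + 2) * (A * C)) ≤ (k + 1) * ((k + 1) * B ^ 2) := by
      nlinarith [sq_nonneg B, mul_nonneg hk (sq_nonneg B)]
    exact le_of_mul_le_mul_left h4 (by positivity)
  have e1 : (k + 2) * ((B + x * A) * (D + x * C)) = (k + 2) * (B * D) +
      x * ((k + 2) * (A * D) + (k + 2) * (B * C)) + x ^ 2 * ((k + 2) * (A * C)) := by ring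
  have e2 : (k + 1) * (C + x * B) ^ 2 = (k + 1) * C ^ 2 + x * (2 * (k + 1) * (B * C)) +
      x ^ 2 * ((k + 1) * B ^ 2) := by ring
  rw [e1, e2]
  have h5 : x * ((k + 2) * (A * D) + (k + 2) * (B * C)) ≤ x * (2 * (k + 1) * (B * C)) :=
    mul_le_mul_of_nonneg_left (by nlinarith) hx
  have h6 : x ^ 2 * ((k + 2) * (A * C)) ≤ x ^ 2 * ((k + 1) * B ^ 2) :=
    mul_le_mul_of_nonneg_left hAC (by positivity)
  linarith

theorem newton (p q l : ℕ) :
    ((l : ℝ) + 2) * (e p q l * e p q (l + 2)) ≤ ((l : ℝ) + 1) * e p q (l + 1) ^ 2 := by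
  have h : (∀ l, 0 ≤ e p q l) ∧ (∀ l, e p q l = 0 → e p q (l + 1) = 0) ∧
      ∀ l : ℕ, ((l : ℝ) + 2) * (e p q l * e p q (l + 2)) ≤ ((l : ℝ) + 1) * e p q (l + 1) ^ 2 := by
    apply e_induction (M := fun a => (∀ l, 0 ≤ a l) ∧ (∀ l, a l = 0 → a (l + 1) = 0) ∧
      ∀ l : ℕ, ((l : ℝ) + 2) * (a l * a (l + 2)) ≤ ((l : ℝ) + 1) * a (l + 1) ^ 2)
    · refine ⟨fun l => ?_, fun l _ => ?_, fun l => ?_⟩
      · show (0 : ℝ) ≤ if l = 0 then 1 else 0
        split_ifs <;> norm_num
      · simp
      · simp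
    · rintro a b x hx hb0 hb ⟨hpos, hz, hN⟩
      have hbpos : ∀ l, 0 ≤ b l := by
        intro l
        cases l with
        | zero => rw [hb0]; exact hpos 0
        | succ l =>
          rw [hb]
          have := hpos l
          have := hpos (l + 1)
          positivity
      refine ⟨hbpos, ?_, ?_⟩
      · intro l hl
        rw [hb]
        cases l with
        | zero =>
          rw [hb0] at hl
          rw [hl, hz 0 hl]
          ring
        | succ l =>
          rw [hb] at hl
          have h1 := hpos l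
          have h2 := hpos (l + 1)
          have h3 : a (l + 1) = 0 := by nlinarith [mul_nonneg hx.le h1]
          rw [h3, hz _ h3]
          ring
      · intro l
        cases l with
        | zero =>
          rw [hb, hb, hb0]
          have h := newton_core 0 0 (a 0) (a 1) (a 2) x le_rfl le_rfl (hpos 0) (hpos 1) (hpos 2)
            hx.le (hz 0) (hz 1) (by simpa using hN 0) (by simp)
          simpa using h
        | succ l =>
          rw [hb, hb, hb]
          have h := newton_core ((l : ℝ) + 1) (a l) (a (l + 1)) (a (l + 2)) (a (l + 3)) x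
            (by positivity) (hpos _) (hpos _) (hpos _) (hpos _) hx.le (hz _) (hz _)
            (by have := hN (l + 1); push_cast at this; linarith)
            (by have := hN l; linarith)
          push_cast
          linarith
  exact h.2.2 l

end LQ
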