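import Pool.Agent.H65.LQ.Key0

/-!
# The polynomials `P_i = rising i * rising (n - i)`
-/

set_option autoImplicit false

namespace LQ

open Polynomial Finset

/-- `(1/a!) X (X+1) ... (X+a-1)` -/
noncomputable def rR (a : ℕ) : ℝ[X] :=
  C (1 / (a.factorial : ℝ)) * ∏ s ∈ range a, (X + C (s : ℝ))

/-- coefficients of `P_i` -/
noncomputable def P (n i l : ℕ) : ℝ := (rR i * rR (n - i)).coeff l

/-- `A_k = ∑_{i ≤ k, i ≡ k mod 2} P_i` -/
noncomputable def A (n : ℕ) : ℕ → ℕ → ℝ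
  | 0, l => P n 0 l
  | 1, l => P n 1 l
  | k + 2, l => A n k l + P n (k + 2) l

theorem rR_zero : rR 0 = 1 := by simp [rR]

theorem rR_succ (a : ℕ) : C ((a : ℝ) + 1) * rR (a + 1) = (X + C (a : ℝ)) * rR a := by
  unfold rR
  rw [prod_range_succ, Nat.factorial_succ]
  have h2 : (C ((a : ℝ) + 1) : ℝ[X]) * C (1 / (((a + 1) * a.factorial : ℕ) : ℝ))
      = C (1 / (a.factorial : ℝ)) := by
    rw [← C_mul]
    congr 1
    have : (a.factorial : ℝ) ≠ 0 := by exact_mod_cast a.factorial_ne_zero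
    have h3 : ((a : ℝ) + 1) ≠ 0 := by positivity
    push_cast
    field_simp
  calc C ((a : ℝ) + 1) * (C (1 / (((a + 1) * a.factorial : ℕ) : ℝ)) *
        ((∏ s ∈ range a, (X + C (s : ℝ))) * (X + C (a : ℝ))))
      = (C ((a : ℝ) + 1) * C (1 / (((a + 1) * a.factorial : ℕ) : ℝ))) *
        ((∏ s ∈ range a, (X + C (s : ℝ))) * (X + C (a : ℝ))) := by ring
    _ = _ := by rw [h2]; ring

/-- `rR (a+1) = X/(a+1) ∏_{s ≤ a} (1 + X/s)` -/
theorem rR_eq (a : ℕ) : rR (a + 1) = C (1 / ((a : ℝ) + 1)) * X *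
    ∏ s ∈ range a, (1 + C (1 / ((s : ℝ) + 1)) * X) := by
  induction a with
  | zero =>
    unfold rR
    simp
  | succ a ih =>
    have h := rR_succ (a + 1)
    have hne : (((a + 1 : ℕ) : ℝ) + 1) ≠ 0 := by positivity
    have hinj : (C (((a + 1 : ℕ) : ℝ) + 1) : ℝ[X]) ≠ 0 := by
      rw [Ne, C_eq_zero]; exact hne
    apply mul_left_cancel₀ hinj
    rw [h, ih, prod_range_succ]
    have h1 : (C (((a + 1 : ℕ) : ℝ) + 1) : ℝ[X]) * C (1 / (((a + 1 : ℕ) : ℝ) + 1)) = 1 := by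
      rw [← C_mul, mul_one_div_cancel hne, C_1]
    have h2 : (X + C ((a + 1 : ℕ) : ℝ)) * C (1 / ((a : ℝ) + 1)) =
        (1 + C (1 / ((a : ℝ) + 1)) * X : ℝ[X]) := by
      have h3 : (C ((a + 1 : ℕ) : ℝ) : ℝ[X]) * C (1 / ((a : ℝ) + 1)) = 1 := by
        rw [← C_mul]
        push_cast
        rw [mul_one_div_cancel (by positivity), C_1]
      rw [add_mul, h3]
      ring
    calc (X + C ((a + 1 : ℕ) : ℝ)) * (C (1 / ((a : ℝ) + 1)) * X *
          ∏ s ∈ range a, (1 + C (1 / ((s : ℝ) + 1)) * X))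
        = ((X + C ((a + 1 : ℕ) : ℝ)) * C (1 / ((a : ℝ) + 1))) * X *
          ∏ s ∈ range a, (1 + C (1 / ((s : ℝ) + 1)) * X) := by ring
      _ = (1 + C (1 / ((a : ℝ) + 1)) * X) * X *
          ∏ s ∈ range a, (1 + C (1 / ((s : ℝ) + 1)) * X) := by rw [h2]
      _ = (C (((a + 1 : ℕ) : ℝ) + 1) * C (1 / (((a + 1 : ℕ) : ℝ) + 1))) * X *
          ((∏ s ∈ range a, (1 + C (1 / ((s : ℝ) + 1)) * X)) *
            (1 + C (1 / ((a : ℝ) + 1)) * X)) := by rw [h1]; ring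
      _ = _ := by ring

theorem P_mid (a b l : ℕ) : P (a + b + 2) (a + 1) (l + 2) =
    e a b l / (((a : ℝ) + 1) * ((b : ℝ) + 1)) := by
  unfold P
  have h1 : a + b + 2 - (a + 1) = b + 1 := by omega
  rw [h1, rR_eq, rR_eq]
  have h2 : C (1 / ((a : ℝ) + 1)) * X * (∏ s ∈ range a, (1 + C (1 / ((s : ℝ) + 1)) * X)) *
      (C (1 / ((b : ℝ) + 1)) * X * ∏ s ∈ range b, (1 + C (1 / ((s : ℝ) + 1)) * X)) =
      C (1 / ((a : ℝ) + 1) * (1 / ((b : ℝ) + 1))) * (E a b * X ^ 2) := by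
    unfold E
    rw [C_mul]
    ring
  rw [h2, coeff_C_mul, coeff_mul_X_pow]
  unfold e
  field_simp

theorem P_mid_low (a b l : ℕ) (hl : l < 2) : P (a + b + 2) (a + 1) l = 0 := by
  unfold P
  have h1 : a + b + 2 - (a + 1) = b + 1 := by omega
  rw [h1, rR_eq, rR_eq]
  have h2 : C (1 / ((a : ℝ) + 1)) * X * (∏ s ∈ range a, (1 + C (1 / ((s : ℝ) + 1)) * X)) *
      (C (1 / ((b : ℝ) + 1)) * X * ∏ s ∈ range b, (1 + C (1 / ((s : ℝ) + 1)) * X)) =
      C (1 / ((a : ℝ) + 1) * (1 / ((b : ℝ) + 1))) * (E a b * X ^ 2) := by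
    unfold E
    rw [C_mul]
    ring
  rw [h2, coeff_C_mul, coeff_mul_X_pow', if_neg (by omega), mul_zero]

theorem P_zero (b l : ℕ) : P (b + 1) 0 (l + 1) = e 0 b l / ((b : ℝ) + 1) := by
  unfold P
  rw [Nat.sub_zero, rR_zero, rR_eq, one_mul]
  have h2 : C (1 / ((b : ℝ) + 1)) * X * (∏ s ∈ range b, (1 + C (1 / ((s : ℝ) + 1)) * X)) =
      C (1 / ((b : ℝ) + 1)) * (E 0 b * X) := by
    unfold E
    simp
    ring
  rw [h2, coeff_C_mul, coeff_mul_X]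
  unfold e
  field_simp

theorem P_zero_low (b : ℕ) : P (b + 1) 0 0 = 0 := by
  unfold P
  rw [Nat.sub_zero, rR_zero, rR_eq, one_mul]
  have h2 : C (1 / ((b : ℝ) + 1)) * X * (∏ s ∈ range b, (1 + C (1 / ((s : ℝ) + 1)) * X)) =
      C (1 / ((b : ℝ) + 1)) * (E 0 b * X) := by
    unfold E
    simp
    ring
  rw [h2, coeff_C_mul]
  simp

/-- the telescoping identity for polynomials -/
theorem telescope (n h : ℕ) (hh : h ≤ n) :
    X * ∑ i ∈ range (h + 1), C ((n : ℝ) - 2 * (i : ℝ)) * (rR i * rR (n - i)) =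
      C ((n : ℝ) - h) * ((X + C (h : ℝ)) * (rR h * rR (n - h))) := by
  induction h with
  | zero => simp; ring
  | succ h ih =>
    rw [sum_range_succ, mul_add, ih (by omega)]
    obtain ⟨b, rfl⟩ : ∃ b, n = h + 1 + b := ⟨n - (h + 1), by omega⟩
    have e1 : h + 1 + b - h = b + 1 := by omega
    have e2 : h + 1 + b - (h + 1) = b := by omega
    rw [e1, e2]
    have r1 := rR_succ h
    have r2 := rR_succ b
    have c1 : ((h + 1 + b : ℕ) : ℝ) - h = (b : ℝ) + 1 := by push_cast; ring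
    have c2 : ((h + 1 + b : ℕ) : ℝ) - 2 * ((h + 1 : ℕ) : ℝ) = (b : ℝ) - h - 1 := by
      push_cast; ring
    have c3 : ((h + 1 + b : ℕ) : ℝ) - ((h + 1 : ℕ) : ℝ) = (b : ℝ) := by push_cast; ring
    rw [c1, c2, c3]
    have h3 : C ((b : ℝ) + 1) * ((X + C (h : ℝ)) * (rR h * rR (b + 1))) =
        ((X + C (h : ℝ)) * rR h) * (C ((b : ℝ) + 1) * rR (b + 1)) := by ring
    rw [h3, r2, ← r1]
    have c4 : (C ((h + 1 : ℕ) : ℝ) : ℝ[X]) = C (h : ℝ) + 1 := by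
      push_cast
      simp
    have c5 : (C ((b : ℝ) - h - 1) : ℝ[X]) = C (b : ℝ) - C (h : ℝ) - 1 := by simp
    have c6 : (C ((h : ℝ) + 1) : ℝ[X]) = C (h : ℝ) + 1 := by simp
    rw [c4, c5, c6]
    ring

theorem telescope_coeff (n h j : ℕ) (hh : h ≤ n) :
    ∑ i ∈ range (h + 1), ((n : ℝ) - 2 * (i : ℝ)) * P n i j =
      ((n : ℝ) - h) * (P n h j + (h : ℝ) * P n h (j + 1)) := by
  have h1 := congrArg (fun q => coeff q (j + 1)) (telescope n h hh)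
  rw [coeff_X_mul, finsetSum_coeff, coeff_C_mul, add_mul, coeff_add, coeff_X_mul,
    coeff_C_mul] at h1
  simp only [coeff_C_mul] at h1
  unfold P
  exact h1

end LQ
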