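import Pool.Agent.H65.LQ.Fl

/-!
# Numerical requirements on the constants `Th`
-/

set_option autoImplicit false

namespace LQ

theorem reqA (t : ℕ) (ht : t ≤ 7) (s : ℝ) (hs : 0 ≤ s) (hs2 : s ^ 2 = (t : ℝ) + 2) :
    2 * ((t : ℝ) + 2) ≤ Th (t + 1) * (s + 1) := by
  rw [Th_small (t + 1) (by omega) (by omega)]
  have key : (15 * (t : ℝ) + 22) / (5 * t + 18) ≤ s := by
    apply le_of_sq_le_sq _ hs
    rw [hs2]
    interval_cases t <;> norm_num
  have h1 : (0 : ℝ) < 5 * t + 18 := by positivity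
  rw [div_le_iff₀ h1] at key
  push_cast
  nlinarith

theorem reqB (t : ℕ) (ht : 8 ≤ t) (s : ℝ) (hs : 0 ≤ s) (hs2 : s ^ 2 = (t : ℝ) + 2) :
    (1 + Th t / (Th t - 1)) * ((t : ℝ) + 2) ≤ Th (t + 1) * (s + 1) := by
  rcases le_or_gt t 14 with h1 | h1
  · rw [Th_small (t + 1) (by omega) (by omega), Th_small t (by omega) (by omega)]
    have key : (16 + 10 * (t : ℝ)) * (t + 2) * 10 / ((3 + 5 * t) * (18 + 5 * t)) - 1 ≤ s := by
      apply le_of_sq_le_sq _ hs
      rw [hs2]
      interval_cases t <;> norm_num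
    have h2 : (0 : ℝ) < 3 + 5 * t := by positivity
    have h3 : (0 : ℝ) < 18 + 5 * t := by positivity
    have e1 : (1 + (13 / 10 + (t : ℝ) / 2) / (13 / 10 + (t : ℝ) / 2 - 1)) =
        (16 + 10 * t) / (3 + 5 * t) := by
      have h6 : (13 / 10 + (t : ℝ) / 2 - 1) = (3 + 5 * t) / 10 := by ring
      rw [h6]
      field_simp
      ring
    rw [e1]
    have h4 : (16 + 10 * (t : ℝ)) * (t + 2) * 10 / ((3 + 5 * t) * (18 + 5 * t)) ≤ s + 1 := by
      linarith
    rw [div_le_iff₀ (by positivity)] at h4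
    rw [div_mul_eq_mul_div, div_le_iff₀ h2]
    push_cast
    nlinarith
  rcases le_or_gt t 22 with h2 | h2
  · have hT0 : Th t = 44 / 5 := by
      rcases eq_or_lt_of_le (show 15 ≤ t from h1) with h3 | h3
      · rw [← h3, Th_small 15 (by norm_num) (by norm_num)]; norm_num
      · exact Th_mid t (by omega) (by omega)
    rw [hT0, Th_mid (t + 1) (by omega) (by omega)]
    have key : (83 / 39 : ℝ) * (t + 2) * (5 / 44) - 1 ≤ s := by
      apply le_of_sq_le_sq _ hs
      rw [hs2]
      interval_cases t <;> norm_num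
    linarith
  rcases eq_or_lt_of_le (show 23 ≤ t from h2) with h3 | h3
  · have h5 : (5 : ℝ) ≤ s := by
      apply le_of_sq_le_sq _ hs
      rw [hs2, ← h3]
      norm_num
    rw [← h3, Th_mid 23 (by norm_num) (by norm_num), Th_large (23 + 1) (by norm_num)]
    norm_num
    linarith
  · have h5 : (5 : ℝ) ≤ s := by
      apply le_of_sq_le_sq _ hs
      rw [hs2]
      have : (24 : ℝ) ≤ t := by exact_mod_cast h3
      linarith
    have ht' : (24 : ℝ) ≤ t := by exact_mod_cast h3
    rw [Th_large (t + 1) (by omega), Th_large t (by omega)]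
    have e1 : (1 + (1 + (t : ℝ) / 3) / (1 + (t : ℝ) / 3 - 1)) = (2 * t + 3) / t := by
      have : (t : ℝ) ≠ 0 := by linarith
      have h6 : (1 + (t : ℝ) / 3 - 1) = t / 3 := by ring
      rw [h6]
      field_simp
      ring
    rw [e1, div_mul_eq_mul_div, div_le_iff₀ (by linarith)]
    push_cast
    nlinarith [mul_nonneg (mul_nonneg (show (0 : ℝ) ≤ t by linarith)
      (show (0 : ℝ) ≤ t + 4 by linarith)) (show (0 : ℝ) ≤ s - 5 by linarith)]

end LQ
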