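import Pool.Agent.H65.LQ.Base

/-!
# The reverse Newton inequality for all `p ≤ q`, `p + q ≥ 38`
-/

set_option autoImplicit false

namespace LQ

theorem Th_zero : Th 0 = 1 := by simp [Th]

theorem Th_ge_one (l : ℕ) : 1 ≤ Th l := by
  unfold Th
  split_ifs <;> try norm_num
  · have : (0 : ℝ) ≤ (l : ℝ) := by positivity
    linarith
  · have : (0 : ℝ) ≤ (l : ℝ) := by positivity
    linarith

theorem Th_small (l : ℕ) (h0 : l ≠ 0) (h : l ≤ 15) : Th l = 13 / 10 + (l : ℝ) / 2 := by
  simp [Th, h0, h]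

theorem Th_mid (l : ℕ) (h0 : 15 < l) (h : l ≤ 23) : Th l = 44 / 5 := by
  simp [Th, show l ≠ 0 by omega, show ¬ l ≤ 15 by omega, h]

theorem Th_large (l : ℕ) (h0 : 23 < l) : Th l = 1 + (l : ℝ) / 3 := by
  simp [Th, show l ≠ 0 by omega, show ¬ l ≤ 15 by omega, show ¬ l ≤ 23 by omega]

/-- the growth condition -/
theorem Th_growth (l q : ℕ) (hq : 20 ≤ q) (hl : l + 1 ≤ 2 * q) :
    (Th (l + 1) - 1) * ((q : ℝ) + 1) ≤ (q : ℝ) * Th l := by
  have hq' : (20 : ℝ) ≤ q := by exact_mod_cast hq
  rcases Nat.eq_zero_or_pos l with h0 | hpos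
  · subst h0
    rw [Th_zero, Th_small 1 (by norm_num) (by norm_num)]
    push_cast
    linarith
  rcases le_or_gt l 14 with h1 | h1
  · rw [Th_small l (by omega) (by omega), Th_small (l + 1) (by omega) (by omega)]
    have : (l : ℝ) ≤ 14 := by exact_mod_cast h1
    push_cast
    nlinarith
  rcases le_or_gt l 22 with h2 | h2
  · rw [Th_mid (l + 1) (by omega) (by omega)]
    rcases eq_or_lt_of_le (show 15 ≤ l from h1) with h3 | h3
    · rw [Th_small l (by omega) (by omega), ← h3]
      norm_num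
      linarith
    · rw [Th_mid l (by omega) (by omega)]
      linarith
  rcases eq_or_lt_of_le (show 23 ≤ l from h2) with h3 | h3
  · rw [Th_large (l + 1) (by omega), Th_mid l (by omega) (by omega), ← h3]
    norm_num
    linarith
  · rw [Th_large (l + 1) (by omega), Th_large l (by omega)]
    have : (l : ℝ) + 1 ≤ 2 * q := by exact_mod_cast hl
    push_cast
    nlinarith

/-- the statement for one `(p, q)`, with the parameter `ε` -/
def RN (a : ℕ → ℝ) (ε : ℝ) : Prop :=
  ∀ l, Th (l + 1) * (a (l + 1) ^ 2 - a l * a (l + 2)) ≤ a (l + 1) ^ 2 + ε * a (l + 1) * a l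

theorem rn_step (a b : ℕ → ℝ) (x ε ε' : ℝ) (M q : ℕ) (ha0 : a 0 = 1)
    (hb0 : b 0 = a 0) (hb : ∀ l, b (l + 1) = a (l + 1) + x * a l)
    (hpos : ∀ l, 0 ≤ a l) (hz : ∀ l, a l = 0 → a (l + 1) = 0) (hM : ∀ l, M < l → b l = 0)
    (hq : 20 ≤ q) (hMq : M ≤ 2 * q) (hε : 0 ≤ ε) (hx : ε ≤ x) (hε' : 0 ≤ ε')
    (hxq : x * q ≤ 1) (hεq : 1 ≤ ε' * ((q : ℝ) + 1))
    (h : RN a ε) : RN b ε' := by
  intro l
  have hx0 : 0 ≤ x := hε.trans hx
  have hbpos : ∀ l, 0 ≤ b l := by
    intro l
    cases l with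
    | zero => rw [hb0]; exact hpos 0
    | succ l =>
      rw [hb]
      have := hpos l
      have := hpos (l + 1)
      positivity
  rcases le_or_gt (l + 1) M with hl | hl
  · -- the growth condition in the form needed
    have hg := Th_growth l q hq (by omega)
    have hT1 := Th_ge_one (l + 1)
    have hT0 := Th_ge_one l
    have hcond : (Th (l + 1) - 1) * x ≤ ε' * Th l := by
      have hqp : (0 : ℝ) < q := by
        have : 0 < q := by omega
        exact_mod_cast this
      have h1 : ((Th (l + 1) - 1) * x) * q ≤ Th (l + 1) - 1 := by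
        have : 0 ≤ Th (l + 1) - 1 := by linarith
        nlinarith
      have h2 : Th l ≤ (ε' * Th l) * ((q : ℝ) + 1) := by nlinarith
      have h3 : ((Th (l + 1) - 1) * x) * (q * ((q : ℝ) + 1)) ≤
          (ε' * Th l) * (q * ((q : ℝ) + 1)) := by
        have h4 : (((Th (l + 1) - 1) * x) * q) * ((q : ℝ) + 1) ≤
            (Th (l + 1) - 1) * ((q : ℝ) + 1) :=
          mul_le_mul_of_nonneg_right h1 (by positivity)
        have h5 : (q : ℝ) * Th l ≤ q * ((ε' * Th l) * ((q : ℝ) + 1)) :=
          mul_le_mul_of_nonneg_left h2 hqp.le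
        nlinarith
      exact le_of_mul_le_mul_right h3 (by positivity)
    cases l with
    | zero =>
      rw [hb, hb, hb0]
      have h1 := h 0
      have := rn_core 0 (a 0) (a 1) (a 2) x ε ε' (Th 1) (Th 0) le_rfl (hpos 0) (hpos 1) (hpos 2)
        hε hx hε' hT1 (by linarith) hcond h1 (by rw [Th_zero, ha0]; linarith) (hz 0)
      simpa using this
    | succ l =>
      rw [hb, hb, hb]
      exact rn_core (a l) (a (l + 1)) (a (l + 2)) (a (l + 3)) x ε ε' (Th (l + 2)) (Th (l + 1))
        (hpos _) (hpos _) (hpos _) (hpos _) hε hx hε' hT1 (by linarith) hcond (h (l + 1)) (h l)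
        (hz _)
  · rw [hM (l + 1) hl, hM (l + 2) (by omega)]
    simp

theorem e_zero_succ (p q l : ℕ) (h : e p q l = 0) : e p q (l + 1) = 0 := by
  rcases le_or_gt l (p + q) with h1 | h1
  · exact absurd h (e_pos p q l h1).ne'
  · exact e_eq_zero _ _ _ (by omega)

theorem rn_aux (M : ℕ) : ∀ p q : ℕ, p ≤ q → p + q = 38 + M → RN (e p q) (1 / ((q : ℝ) + 1)) := by
  induction M with
  | zero =>
    intro p q hpq h l
    exact rn_base p q l hpq h
  | succ M ih =>
    intro p q hpq h
    rcases eq_or_lt_of_le hpq with he | hlt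
    · -- `p = q`
      obtain ⟨r, rfl⟩ : ∃ r, p = r + 1 := ⟨p - 1, by omega⟩
      subst he
      have h1 := ih r (r + 1) (by omega) (by omega)
      refine rn_step (e r (r + 1)) (e (r + 1) (r + 1)) (1 / ((r : ℝ) + 1))
        (1 / (((r + 1 : ℕ) : ℝ) + 1)) _ (r + 1 + (r + 1)) (r + 1) (e_zero _ _)
        (by rw [e_zero, e_zero]) (fun l => e_left r (r + 1) l) (fun l => e_nonneg _ _ _)
        (fun l => e_zero_succ _ _ _) (fun l hl => e_eq_zero _ _ _ hl) (by omega) (by omega)
        (by positivity) ?_ (by positivity) ?_ ?_ h1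
      · push_cast
        apply one_div_le_one_div_of_le (by positivity)
        linarith
      · push_cast
        rw [one_div_mul_cancel (by positivity)]
      · rw [one_div_mul_cancel (by positivity)]
    · obtain ⟨r, rfl⟩ : ∃ r, q = r + 1 := ⟨q - 1, by omega⟩
      have h1 := ih p r (by omega) (by omega)
      refine rn_step (e p r) (e p (r + 1)) (1 / ((r : ℝ) + 1))
        (1 / ((r : ℝ) + 1)) _ (p + (r + 1)) (r + 1) (e_zero _ _)
        (by rw [e_zero, e_zero]) (fun l => e_right p r l) (fun l => e_nonneg _ _ _)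
        (fun l => e_zero_succ _ _ _) (fun l hl => e_eq_zero _ _ _ hl) (by omega) (by omega)
        (by positivity) le_rfl (by positivity) ?_ ?_ h1
      · push_cast
        rw [one_div_mul_cancel (by positivity)]
      · rw [one_div_mul_cancel (by positivity)]

/-- **The reverse Newton inequality.** -/
theorem rn (p q l : ℕ) (hpq : p ≤ q) (h : 38 ≤ p + q) :
    Th (l + 1) * (e p q (l + 1) ^ 2 - e p q l * e p q (l + 2)) ≤
      e p q (l + 1) ^ 2 + 1 / ((q : ℝ) + 1) * e p q (l + 1) * e p q l :=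
  rn_aux (p + q - 38) p q hpq (by omega) l

end LQ
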