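import Pool.Agent.H65.LQ.Newt

/-!
# The reverse Newton inequality: one step
-/

set_option autoImplicit false

namespace LQ

theorem rn_core (A B C D x ε ε' T T0 : ℝ) (hA : 0 ≤ A) (hB : 0 ≤ B) (hC : 0 ≤ C)
    (hD : 0 ≤ D) (hε : 0 ≤ ε) (hx : ε ≤ x) (hε' : 0 ≤ ε') (hT : 1 ≤ T) (_hT0 : 0 < T0)
    (hcond : (T - 1) * x ≤ ε' * T0)
    (h1 : T * (C ^ 2 - B * D) ≤ C ^ 2 + ε * C * B)
    (h0 : T0 * (B ^ 2 - A * C) ≤ B ^ 2 + ε * B * A) (hBC : B = 0 → C = 0) :
    T * ((C + x * B) ^ 2 - (B + x * A) * (D + x * C)) ≤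
      (C + x * B) ^ 2 + ε' * (C + x * B) * (B + x * A) := by
  have hx0 : 0 ≤ x := hε.trans hx
  rcases eq_or_lt_of_le hB with hB0 | hBp
  · have hC0 := hBC hB0.symm
    rw [← hB0, hC0]
    have : 0 ≤ T * (x * A * D) := by positivity
    nlinarith
  -- multiply by `B`
  have hB' : 0 ≤ B + x * A := by positivity
  have hC' : 0 ≤ C + x * B := by positivity
  -- lower bound of `T B (D + x C)`
  have h2 : (T - 1) * C * (C + x * B) ≤ T * (B * (D + x * C)) := by
    have h3 : 0 ≤ (x - ε) * (B * C) := mul_nonneg (by linarith) (by positivity)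
    nlinarith
  have h4 : (B + x * A) * ((T - 1) * C * (C + x * B)) ≤
      (B + x * A) * (T * (B * (D + x * C))) := mul_le_mul_of_nonneg_left h2 hB'
  -- the final comparison
  have h5 : (T - 1) * x * (B ^ 2 - A * C) ≤ ε' * B * (B + x * A) := by
    rcases le_or_gt (B ^ 2 - A * C) 0 with hn | hp
    · have : (T - 1) * x * (B ^ 2 - A * C) ≤ 0 :=
        mul_nonpos_of_nonneg_of_nonpos (mul_nonneg (by linarith) hx0) hn
      have : 0 ≤ ε' * B * (B + x * A) := by positivity
      linarith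
    · have h6 : (T - 1) * x * (B ^ 2 - A * C) ≤ ε' * T0 * (B ^ 2 - A * C) :=
        mul_le_mul_of_nonneg_right hcond hp.le
      have h7 : T0 * (B ^ 2 - A * C) ≤ B * (B + x * A) := by
        have h8 : ε * (B * A) ≤ x * (B * A) := mul_le_mul_of_nonneg_right hx (by positivity)
        nlinarith
      have h9 : ε' * (T0 * (B ^ 2 - A * C)) ≤ ε' * (B * (B + x * A)) :=
        mul_le_mul_of_nonneg_left h7 hε'
      nlinarith
  have h10 : 0 ≤ (C + x * B) * (ε' * B * (B + x * A) - (T - 1) * x * (B ^ 2 - A * C)) :=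
    mul_nonneg hC' (by linarith)
  have h11 : B * (T * ((C + x * B) ^ 2 - (B + x * A) * (D + x * C))) ≤
      B * ((C + x * B) ^ 2 + ε' * (C + x * B) * (B + x * A)) := by
    have e1 : B * ((C + x * B) ^ 2 + ε' * (C + x * B) * (B + x * A)) -
        B * (T * ((C + x * B) ^ 2 - (B + x * A) * (D + x * C))) =
        ((B + x * A) * (T * (B * (D + x * C))) - (B + x * A) * ((T - 1) * C * (C + x * B))) +
        (C + x * B) * (ε' * B * (B + x * A) - (T - 1) * x * (B ^ 2 - A * C)) := by ring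
    linarith
  exact le_of_mul_le_mul_left h11 hBp

end LQ
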