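import Pool.Agent.H65.LQ.Base
import Pool.Agent.H65.LQ.Pol

/-!
# Small `n`: kernel computation
-/

set_option autoImplicit false

namespace LQ

open Polynomial Finset

/-- coefficients of `X (X+1) ... (X+a-1) * L` -/
def runM : ℕ → List ℕ → List ℕ
  | 0, L => L
  | a + 1, L => stepL a (runM a L)

/-- `n! / (i! (n-i)!)` -/
def wt (n i : ℕ) : ℕ := n.factorial / (i.factorial * (n - i).factorial)

/-- coefficients of `n! P_i` -/
def QL (n i : ℕ) : List ℕ := (runM i (runM (n - i) [1])).map (wt n i * ·)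

/-- coefficients of `n! A_k` -/
def AL (n : ℕ) : ℕ → List ℕ
  | 0 => QL n 0
  | 1 => QL n 1
  | k + 2 => List.zipWith (· + ·) (AL n k) (QL n (k + 2))

def lcL : List ℕ → Bool
  | a :: b :: c :: L => decide (a * c ≤ b ^ 2) && lcL (b :: c :: L)
  | _ => true

theorem small_chk : (List.range 20).all (fun r => (List.range r).all
    (fun k => lcL (AL (2 * r + 1) k))) = true := by decide +kernel

theorem runM_length (a : ℕ) (L : List ℕ) : (runM a L).length = L.length + a := by
  induction a with
  | zero => simp [runM]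
  | succ a ih =>
    show (stepL a (runM a L)).length = _
    rw [stepL_length, ih]
    ring

theorem QL_length (n i : ℕ) (h : i ≤ n) : (QL n i).length = n + 1 := by
  unfold QL
  rw [List.length_map, runM_length, runM_length]
  simp
  omega

theorem AL_length (n : ℕ) : ∀ k : ℕ, k ≤ n → (AL n k).length = n + 1
  | 0, _ => QL_length n 0 (by omega)
  | 1, h => QL_length n 1 h
  | k + 2, h => by
    show (List.zipWith (· + ·) (AL n k) (QL n (k + 2))).length = _
    rw [List.length_zipWith, AL_length n k (by omega), QL_length n (k + 2) h]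
    simp

theorem coeff_rec_succ (a l : ℕ) (G : ℝ[X]) : ((a : ℝ) + 1) * (rR (a + 1) * G).coeff (l + 1) =
    (a : ℝ) * (rR a * G).coeff (l + 1) + (rR a * G).coeff l := by
  have h : C ((a : ℝ) + 1) * (rR (a + 1) * G) = (rR a * G) * X + C (a : ℝ) * (rR a * G) := by
    rw [← mul_assoc, rR_succ]
    ring
  have h2 := congrArg (fun p : ℝ[X] => p.coeff (l + 1)) h
  simp only [coeff_C_mul, coeff_add, coeff_mul_X] at h2
  linarith

theorem coeff_rec_zero (a : ℕ) (G : ℝ[X]) : ((a : ℝ) + 1) * (rR (a + 1) * G).coeff 0 =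
    (a : ℝ) * (rR a * G).coeff 0 := by
  have h : C ((a : ℝ) + 1) * (rR (a + 1) * G) = (rR a * G) * X + C (a : ℝ) * (rR a * G) := by
    rw [← mul_assoc, rR_succ]
    ring
  have h2 := congrArg (fun p : ℝ[X] => p.coeff 0) h
  simpa using h2

theorem runM_spec (a : ℕ) (L : List ℕ) (G : ℝ[X]) (c : ℝ)
    (hG : ∀ l, (L.getD l 0 : ℝ) = c * G.coeff l) (l : ℕ) :
    ((runM a L).getD l 0 : ℝ) = (a.factorial : ℝ) * c * (rR a * G).coeff l := by
  induction a generalizing l with
  | zero =>
    rw [rR_zero, one_mul]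
    show (L.getD l 0 : ℝ) = _
    rw [hG]
    simp
  | succ a ih =>
    cases l with
    | zero =>
      show (((stepL a (runM a L)).getD 0 0 : ℕ) : ℝ) = _
      rw [stepL_zero, Nat.factorial_succ]
      push_cast
      rw [ih]
      have := coeff_rec_zero a G
      calc (a : ℝ) * ((a.factorial : ℝ) * c * (rR a * G).coeff 0)
          = (a.factorial : ℝ) * c * ((a : ℝ) * (rR a * G).coeff 0) := by ring
        _ = _ := by rw [← this]; ring
    | succ l =>
      show (((stepL a (runM a L)).getD (l + 1) 0 : ℕ) : ℝ) = _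
      rw [stepL_succ, Nat.factorial_succ]
      push_cast
      rw [ih, ih]
      have := coeff_rec_succ a l G
      calc (a : ℝ) * ((a.factorial : ℝ) * c * (rR a * G).coeff (l + 1)) +
            (a.factorial : ℝ) * c * (rR a * G).coeff l
          = (a.factorial : ℝ) * c * ((a : ℝ) * (rR a * G).coeff (l + 1) +
            (rR a * G).coeff l) := by ring
        _ = _ := by rw [← this]; ring

theorem map_getD (s : ℕ) (L : List ℕ) (l : ℕ) : (L.map (s * ·)).getD l 0 = s * L.getD l 0 := by
  induction L generalizing l with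
  | nil => simp
  | cons a L ih =>
    cases l with
    | zero => simp
    | succ l => simpa using ih l

theorem wt_spec (n i : ℕ) (h : i ≤ n) :
    (wt n i : ℝ) * ((i.factorial : ℝ) * ((n - i).factorial : ℝ)) = (n.factorial : ℝ) := by
  unfold wt
  rw [← Nat.choose_eq_factorial_div_factorial h]
  have := Nat.choose_mul_factorial_mul_factorial h
  rw [← mul_assoc]
  exact_mod_cast this

theorem QL_spec (n i l : ℕ) (h : i ≤ n) :
    ((QL n i).getD l 0 : ℝ) = (n.factorial : ℝ) * P n i l := by
  unfold QL P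
  rw [map_getD]
  push_cast
  have h1 : ∀ l, ((([1] : List ℕ).getD l 0 : ℕ) : ℝ) = 1 * (1 : ℝ[X]).coeff l := by
    intro l
    rw [coeff_one]
    cases l <;> simp
  have h2 := runM_spec (n - i) [1] 1 1 h1
  have h3 : ∀ l, ((runM (n - i) [1]).getD l 0 : ℝ) =
      ((n - i).factorial : ℝ) * (rR (n - i)).coeff l := by
    intro l
    rw [h2 l]
    simp
  have h4 := runM_spec i (runM (n - i) [1]) (rR (n - i)) ((n - i).factorial : ℝ) h3 l
  rw [h4, ← wt_spec n i h]
  ring

theorem AL_spec (n l : ℕ) : ∀ k : ℕ, k ≤ n →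
    ((AL n k).getD l 0 : ℝ) = (n.factorial : ℝ) * A n k l
  | 0, _ => QL_spec n 0 l (by omega)
  | 1, h => QL_spec n 1 l h
  | k + 2, h => by
    show (((List.zipWith (· + ·) (AL n k) (QL n (k + 2))).getD l 0 : ℕ) : ℝ) =
      (n.factorial : ℝ) * (A n k l + P n (k + 2) l)
    rw [zipWith_getD _ _ (by rw [AL_length n k (by omega), QL_length n (k + 2) h])]
    push_cast
    rw [AL_spec n l k (by omega), QL_spec n (k + 2) l h]
    ring

theorem lcL_spec (L : List ℕ) : ∀ (a b : ℕ), lcL (a :: b :: L) = true → ∀ i : ℕ,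
    (a :: b :: L).getD i 0 * (a :: b :: L).getD (i + 2) 0 ≤ (a :: b :: L).getD (i + 1) 0 ^ 2 := by
  induction L with
  | nil =>
    intro a b _ i
    cases i with
    | zero => simp
    | succ i => simp
  | cons c L ih =>
    intro a b h i
    simp only [lcL, Bool.and_eq_true, decide_eq_true_eq] at h
    cases i with
    | zero => simpa using h.1
    | succ i =>
      have := ih b c h.2 i
      simpa using this

theorem lcL_spec' (L : List ℕ) (h : lcL L = true) (i : ℕ) :
    L.getD i 0 * L.getD (i + 2) 0 ≤ L.getD (i + 1) 0 ^ 2 := by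
  match L, h with
  | [], _ => simp
  | [a], _ => cases i <;> simp
  | a :: b :: L, h => exact lcL_spec L a b h i

/-- log-concavity of `A_k` for odd `n ≤ 39` -/
theorem logconc_small (r k l : ℕ) (hr : r < 20) (hk : k < r) :
    A (2 * r + 1) k l * A (2 * r + 1) k (l + 2) ≤ A (2 * r + 1) k (l + 1) ^ 2 := by
  have h1 := small_chk
  rw [List.all_eq_true] at h1
  have h2 := h1 r (List.mem_range.mpr hr)
  rw [List.all_eq_true] at h2
  have h3 := h2 k (List.mem_range.mpr hk)
  have h4 := lcL_spec' _ h3 l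
  have h5 : ((AL (2 * r + 1) k).getD l 0 : ℝ) * ((AL (2 * r + 1) k).getD (l + 2) 0 : ℝ) ≤
      ((AL (2 * r + 1) k).getD (l + 1) 0 : ℝ) ^ 2 := by exact_mod_cast h4
  rw [AL_spec _ _ k (by omega), AL_spec _ _ k (by omega), AL_spec _ _ k (by omega)] at h5
  have hf : (0 : ℝ) < ((2 * r + 1).factorial : ℝ) := by positivity
  set f := ((2 * r + 1).factorial : ℝ)
  have h6 : f ^ 2 * (A (2 * r + 1) k l * A (2 * r + 1) k (l + 2)) ≤
      f ^ 2 * (A (2 * r + 1) k (l + 1) ^ 2) := by nlinarith
  exact le_of_mul_le_mul_left h6 (by positivity)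

end LQ
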